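import Mathlib

/-!
Expectation over a `p`-random subset of a finite set, and the swap-gadget
uniformisation of subset sums.
-/

open Finset

namespace Pool.Agent.H77CS

/-- expectation of `f A`, where `A` is a `p`-random subset of the finite set `X`. -/
noncomputable def Ex (p : ℝ) (X : Finset ℕ) (f : Finset ℕ → ℝ) : ℝ :=
  ∑ A ∈ X.powerset, p ^ A.card * (1 - p) ^ (X.card - A.card) * f A

theorem Ex_empty (p : ℝ) (f : Finset ℕ → ℝ) : Ex p ∅ f = f ∅ := by
  simp [Ex]

theorem Ex_insert (p : ℝ) {a : ℕ} {X : Finset ℕ} (ha : a ∉ X) (f : Finset ℕ → ℝ) :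
    Ex p (insert a X) f = (1 - p) * Ex p X f + p * Ex p X (fun A => f (insert a A)) := by
  unfold Ex
  rw [Finset.sum_powerset_insert ha, Finset.mul_sum, Finset.mul_sum]
  congr 1
  · apply Finset.sum_congr rfl
    intro A hA
    have hA' := Finset.card_le_card (Finset.mem_powerset.mp hA)
    rw [Finset.card_insert_of_notMem ha]
    have : X.card + 1 - A.card = (X.card - A.card) + 1 := by omega
    rw [this, pow_succ]
    ring
  · apply Finset.sum_congr rfl
    intro A hA
    have haA : a ∉ A := fun h => ha (Finset.mem_powerset.mp hA h)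
    rw [Finset.card_insert_of_notMem ha, Finset.card_insert_of_notMem haA]
    have : X.card + 1 - (A.card + 1) = X.card - A.card := by omega
    rw [this, pow_succ]
    ring

theorem Ex_congr {p : ℝ} {X : Finset ℕ} {f g : Finset ℕ → ℝ} (h : ∀ A ⊆ X, f A = g A) :
    Ex p X f = Ex p X g := by
  unfold Ex
  apply Finset.sum_congr rfl
  intro A hA
  rw [h A (Finset.mem_powerset.mp hA)]

theorem Ex_mono {p : ℝ} (hp0 : 0 ≤ p) (hp1 : p ≤ 1) {X : Finset ℕ} {f g : Finset ℕ → ℝ}
    (h : ∀ A ⊆ X, f A ≤ g A) : Ex p X f ≤ Ex p X g := by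
  unfold Ex
  apply Finset.sum_le_sum
  intro A hA
  apply mul_le_mul_of_nonneg_left (h A (Finset.mem_powerset.mp hA))
  have : 0 ≤ 1 - p := by linarith
  positivity

theorem Ex_add (p : ℝ) (X : Finset ℕ) (f g : Finset ℕ → ℝ) :
    Ex p X (fun A => f A + g A) = Ex p X f + Ex p X g := by
  unfold Ex
  rw [← Finset.sum_add_distrib]
  apply Finset.sum_congr rfl
  intro A _
  ring

theorem Ex_mul (p : ℝ) (X : Finset ℕ) (c : ℝ) (f : Finset ℕ → ℝ) :
    Ex p X (fun A => c * f A) = c * Ex p X f := by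
  unfold Ex
  rw [Finset.mul_sum]
  apply Finset.sum_congr rfl
  intro A _
  ring

theorem Ex_sum {ι : Type*} (p : ℝ) (X : Finset ℕ) (s : Finset ι) (f : ι → Finset ℕ → ℝ) :
    Ex p X (fun A => ∑ i ∈ s, f i A) = ∑ i ∈ s, Ex p X (f i) := by
  unfold Ex
  rw [Finset.sum_comm]
  apply Finset.sum_congr rfl
  intro A _
  rw [Finset.mul_sum]

theorem Ex_const (p : ℝ) (X : Finset ℕ) (c : ℝ) : Ex p X (fun _ => c) = c := by
  induction X using Finset.induction_on with
  | empty => simp [Ex_empty]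
  | insert a X ha ih =>
    rw [Ex_insert p ha, ih]
    ring

theorem Ex_nonneg {p : ℝ} (hp0 : 0 ≤ p) (hp1 : p ≤ 1) {X : Finset ℕ} {f : Finset ℕ → ℝ}
    (h : ∀ A ⊆ X, 0 ≤ f A) : 0 ≤ Ex p X f := by
  have := Ex_mono hp0 hp1 (X := X) (f := fun _ => 0) (g := f) h
  rwa [Ex_const] at this

theorem Ex_le_const {p : ℝ} (hp0 : 0 ≤ p) (hp1 : p ≤ 1) {X : Finset ℕ} {f : Finset ℕ → ℝ}
    {c : ℝ} (h : ∀ A ⊆ X, f A ≤ c) : Ex p X f ≤ c := by
  have := Ex_mono hp0 hp1 (X := X) (f := f) (g := fun _ => c) h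
  rwa [Ex_const] at this

theorem Ex_union (p : ℝ) {X Y : Finset ℕ} (h : Disjoint X Y) (f : Finset ℕ → ℝ) :
    Ex p (X ∪ Y) f = Ex p X (fun A => Ex p Y (fun B => f (A ∪ B))) := by
  induction Y using Finset.induction_on generalizing f with
  | empty => simp [Ex_empty]
  | insert b Y hb ih =>
    have hX : Disjoint X Y := by
      apply Finset.disjoint_of_subset_right _ h
      exact Finset.subset_insert _ _
    have hbX : b ∉ X := by
      intro hbX
      exact (Finset.disjoint_left.mp h) hbX (Finset.mem_insert_self _ _)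
    have hbXY : b ∉ X ∪ Y := by simp [hbX, hb]
    have h1 : X ∪ insert b Y = insert b (X ∪ Y) := by
      rw [Finset.union_insert]
    rw [h1, Ex_insert p hbXY, ih hX, ih hX]
    have h2 : (fun A => Ex p (insert b Y) (fun B => f (A ∪ B))) =
        fun A => (1 - p) * Ex p Y (fun B => f (A ∪ B)) +
          p * Ex p Y (fun B => f (insert b (A ∪ B))) := by
      funext A
      rw [Ex_insert p hb]
      congr 2
      congr 1
      funext B
      rw [Finset.union_insert]
    rw [h2, Ex_add, Ex_mul, Ex_mul]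

theorem Ex_comm (p : ℝ) (X Y : Finset ℕ) (f : Finset ℕ → Finset ℕ → ℝ) :
    Ex p X (fun A => Ex p Y (fun B => f A B)) = Ex p Y (fun B => Ex p X (fun A => f A B)) := by
  unfold Ex
  simp_rw [Finset.mul_sum]
  rw [Finset.sum_comm]
  apply Finset.sum_congr rfl
  intro B _
  apply Finset.sum_congr rfl
  intro A _
  ring

/-- second moment of the size -/
theorem Ex_card (p : ℝ) (X : Finset ℕ) : Ex p X (fun A => (A.card : ℝ)) = p * X.card := by
  induction X using Finset.induction_on with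
  | empty => simp [Ex_empty]
  | insert a X ha ih =>
    rw [Ex_insert p ha, ih, Finset.card_insert_of_notMem ha]
    have : Ex p X (fun A => ((insert a A).card : ℝ)) = Ex p X (fun A => (A.card : ℝ) + 1) := by
      apply Ex_congr
      intro A hA
      rw [Finset.card_insert_of_notMem (fun h => ha (hA h))]
      push_cast; rfl
    rw [this, Ex_add, ih, Ex_const]
    push_cast; ring

theorem Ex_card_sq (p : ℝ) (X : Finset ℕ) :
    Ex p X (fun A => ((A.card : ℝ) - p * X.card) ^ 2) = p * (1 - p) * X.card := by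
  have key : ∀ (c : ℝ), Ex p X (fun A => ((A.card : ℝ) - c) ^ 2) =
      p * (1 - p) * X.card + (p * X.card - c) ^ 2 := by
    induction X using Finset.induction_on with
    | empty => intro c; simp [Ex_empty]
    | insert a X ha ih =>
      intro c
      rw [Ex_insert p ha, ih, Finset.card_insert_of_notMem ha]
      have : Ex p X (fun A => (((insert a A).card : ℝ) - c) ^ 2) =
          Ex p X (fun A => ((A.card : ℝ) - (c - 1)) ^ 2) := by
        apply Ex_congr
        intro A hA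
        rw [Finset.card_insert_of_notMem (fun h => ha (hA h))]
        push_cast; ring
      rw [this, ih]
      push_cast; ring
  rw [key]; ring

theorem Ex_indicator_card {p : ℝ} (hp0 : 0 < p) (hp1 : p ≤ 1) {X : Finset ℕ}
    (hX : 0 < X.card) :
    Ex p X (fun A => if (A.card : ℝ) < p * X.card / 2 then (1 : ℝ) else 0)
      ≤ 4 / (p * X.card) := by
  have hXr : (0 : ℝ) < X.card := by exact_mod_cast hX
  have h1 : Ex p X (fun A => if (A.card : ℝ) < p * X.card / 2 then (1 : ℝ) else 0)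
      ≤ Ex p X (fun A => (4 / (p * X.card) ^ 2) * ((A.card : ℝ) - p * X.card) ^ 2) := by
    apply Ex_mono hp0.le hp1
    intro A _
    split_ifs with h
    · rw [div_mul_eq_mul_div, le_div_iff₀ (by positivity)]
      have : p * X.card / 2 < p * X.card - A.card := by linarith
      have h2 : 0 < p * X.card / 2 := by positivity
      nlinarith
    · positivity
  refine h1.trans ?_
  rw [Ex_mul, Ex_card_sq, div_mul_eq_mul_div, div_le_div_iff₀ (by positivity) (by positivity)]
  have : 0 ≤ p * (X.card : ℝ) := by positivity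
  nlinarith [mul_nonneg (mul_nonneg this this) hp0.le, mul_nonneg this this]

/-! ### uniformisation -/

/-- comparison property: averaging over windows of length `W` costs `ε`. -/
def Unif (p : ℝ) (X : Finset ℕ) (W : ℕ) (ε : ℝ) : Prop :=
  ∀ g G : ℕ → ℝ, (∀ s, 0 ≤ g s) → (∀ s, g s ≤ 1) → (∀ s, 0 ≤ G s) →
    (∀ s, ∑ t ∈ range W, g (s + t) ≤ ∑ t ∈ range W, G (s + t)) →
    Ex p X (fun A => g (∑ u ∈ A, u)) ≤ Ex p X (fun A => G (∑ u ∈ A, u)) + ε

/-- comparison property: averaging over a shift by `h`. -/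
def Step (p : ℝ) (Y : Finset ℕ) (h : ℕ) (ε : ℝ) : Prop :=
  ∀ g G : ℕ → ℝ, (∀ s, 0 ≤ g s) → (∀ s, g s ≤ 1) → (∀ s, 0 ≤ G s) →
    (∀ s, g s + g (s + h) ≤ G s + G (s + h)) →
    Ex p Y (fun A => g (∑ u ∈ A, u)) ≤ Ex p Y (fun A => G (∑ u ∈ A, u)) + ε

theorem unif_zero (p : ℝ) : Unif p ∅ 1 0 := by
  intro g G _ _ _ h
  rw [Ex_empty, Ex_empty]
  have := h 0
  simpa using this

theorem step_empty (p : ℝ) (h : ℕ) : Step p ∅ h 1 := by
  intro g G _ h1 h2 _
  rw [Ex_empty, Ex_empty]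
  have := h1 0
  have := h2 0
  simp
  linarith

theorem step_extra {p : ℝ} (hp0 : 0 ≤ p) (hp1 : p ≤ 1) {Y Z : Finset ℕ} {h : ℕ} {ε : ℝ}
    (hS : Step p Y h ε) (hd : Disjoint Y Z) : Step p (Y ∪ Z) h ε := by
  intro g G h0 h1 h2 h3
  rw [Finset.union_comm, Ex_union p hd.symm, Ex_union p hd.symm]
  have : ∀ A ⊆ Z, Ex p Y (fun B => g (∑ u ∈ A ∪ B, u)) ≤
      Ex p Y (fun B => G (∑ u ∈ A ∪ B, u)) + ε := by
    intro A hA
    have h4 := hS (fun s => g ((∑ u ∈ A, u) + s)) (fun s => G ((∑ u ∈ A, u) + s))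
      (fun s => h0 _) (fun s => h1 _) (fun s => h2 _)
      (fun s => by have := h3 ((∑ u ∈ A, u) + s); simpa [add_assoc] using this)
    have e : ∀ (k : ℕ → ℝ), Ex p Y (fun B => k (∑ u ∈ A ∪ B, u)) =
        Ex p Y (fun B => k ((∑ u ∈ A, u) + ∑ u ∈ B, u)) := by
      intro k
      apply Ex_congr
      intro B hB
      rw [Finset.sum_union]
      exact (Finset.disjoint_of_subset_left hA (Finset.disjoint_of_subset_right hB hd.symm))
    rw [e g, e G]
    exact h4
  calc Ex p Z (fun A => Ex p Y (fun B => g (∑ u ∈ A ∪ B, u)))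
      ≤ Ex p Z (fun A => Ex p Y (fun B => G (∑ u ∈ A ∪ B, u)) + ε) :=
        Ex_mono hp0 hp1 this
    _ = _ := by rw [Ex_add, Ex_const]

theorem unif_extra {p : ℝ} (hp0 : 0 ≤ p) (hp1 : p ≤ 1) {Y Z : Finset ℕ} {W : ℕ} {ε : ℝ}
    (hS : Unif p Y W ε) (hd : Disjoint Y Z) : Unif p (Y ∪ Z) W ε := by
  intro g G h0 h1 h2 h3
  rw [Finset.union_comm, Ex_union p hd.symm, Ex_union p hd.symm]
  have : ∀ A ⊆ Z, Ex p Y (fun B => g (∑ u ∈ A ∪ B, u)) ≤
      Ex p Y (fun B => G (∑ u ∈ A ∪ B, u)) + ε := by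
    intro A hA
    have h4 := hS (fun s => g ((∑ u ∈ A, u) + s)) (fun s => G ((∑ u ∈ A, u) + s))
      (fun s => h0 _) (fun s => h1 _) (fun s => h2 _)
      (fun s => by have := h3 ((∑ u ∈ A, u) + s); simpa [add_assoc] using this)
    have e : ∀ (k : ℕ → ℝ), Ex p Y (fun B => k (∑ u ∈ A ∪ B, u)) =
        Ex p Y (fun B => k ((∑ u ∈ A, u) + ∑ u ∈ B, u)) := by
      intro k
      apply Ex_congr
      intro B hB
      rw [Finset.sum_union]
      exact (Finset.disjoint_of_subset_left hA (Finset.disjoint_of_subset_right hB hd.symm))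
    rw [e g, e G]
    exact h4
  calc Ex p Z (fun A => Ex p Y (fun B => g (∑ u ∈ A ∪ B, u)))
      ≤ Ex p Z (fun A => Ex p Y (fun B => G (∑ u ∈ A ∪ B, u)) + ε) :=
        Ex_mono hp0 hp1 this
    _ = _ := by rw [Ex_add, Ex_const]

theorem Ex_union_sum {p : ℝ} {X Y : Finset ℕ} (hd : Disjoint X Y) (k : ℕ → ℝ) :
    Ex p (X ∪ Y) (fun A => k (∑ u ∈ A, u)) =
      Ex p X (fun A => Ex p Y (fun B => k ((∑ u ∈ A, u) + ∑ u ∈ B, u))) := by
  rw [Ex_union p hd]
  apply Ex_congr
  intro A hA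
  apply Ex_congr
  intro B hB
  rw [Finset.sum_union]
  exact (Finset.disjoint_of_subset_left hA (Finset.disjoint_of_subset_right hB hd))

theorem unif_comp {p : ℝ} (hp0 : 0 ≤ p) (hp1 : p ≤ 1) {X Y : Finset ℕ} {W : ℕ} {ε ε' : ℝ}
    (hW : 0 < W) (hε' : 0 ≤ ε')
    (hX : Unif p X W ε) (hY : Step p Y W ε') (hd : Disjoint X Y) :
    Unif p (X ∪ Y) (2 * W) (ε + ε') := by
  intro g G h0 h1 h2 h3
  have hWr : (0 : ℝ) < W := by exact_mod_cast hW
  rw [Ex_union_sum hd, Ex_union_sum hd]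
  have key := hX (fun s => Ex p Y (fun B => g (s + ∑ u ∈ B, u)))
    (fun s => Ex p Y (fun B => G (s + ∑ u ∈ B, u)) + ε')
    (fun s => Ex_nonneg hp0 hp1 (fun B _ => h0 _))
    (fun s => Ex_le_const hp0 hp1 (fun B _ => h1 _))
    (fun s => add_nonneg (Ex_nonneg hp0 hp1 (fun B _ => h2 _)) hε') ?_
  · refine key.trans (le_of_eq ?_)
    rw [Ex_add, Ex_const]; ring
  · intro s
    rw [Finset.sum_add_distrib, ← Ex_sum, ← Ex_sum]
    simp only [Finset.sum_const, Finset.card_range, nsmul_eq_mul]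
    -- scale by W
    have h4 := hY (fun r => (1 / (W : ℝ)) * ∑ t ∈ range W, g (s + t + r))
      (fun r => (1 / (W : ℝ)) * ∑ t ∈ range W, G (s + t + r))
      (fun r => mul_nonneg (by positivity) (Finset.sum_nonneg fun t _ => h0 _)) ?_
      (fun r => mul_nonneg (by positivity) (Finset.sum_nonneg fun t _ => h2 _)) ?_
    · rw [Ex_mul, Ex_mul] at h4
      have h5 : (1 / (W : ℝ)) * Ex p Y (fun A => ∑ t ∈ range W, g (s + t + ∑ u ∈ A, u)) * W ≤
        ((1 / (W : ℝ)) * Ex p Y (fun A => ∑ t ∈ range W, G (s + t + ∑ u ∈ A, u)) + ε') * W :=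
        mul_le_mul_of_nonneg_right h4 hWr.le
      field_simp at h5
      linarith
    · intro r
      rw [one_div, inv_mul_le_iff₀ hWr, mul_one]
      calc ∑ t ∈ range W, g (s + t + r) ≤ ∑ t ∈ range W, (1 : ℝ) :=
            Finset.sum_le_sum fun t _ => h1 _
        _ = W := by simp
    · intro r
      have h6 := h3 (s + r)
      rw [two_mul, Finset.sum_range_add, Finset.sum_range_add] at h6
      have e1 : ∀ k : ℕ → ℝ, ∑ t ∈ range W, k (s + t + r) = ∑ t ∈ range W, k (s + r + t) := by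
        intro k
        apply Finset.sum_congr rfl
        intro t _
        congr 1; ring
      have e2 : ∀ k : ℕ → ℝ, ∑ t ∈ range W, k (s + t + (r + W)) =
          ∑ t ∈ range W, k (s + r + (W + t)) := by
        intro k
        apply Finset.sum_congr rfl
        intro t _
        congr 1; ring
      rw [e1 g, e2 g, e1 G, e2 G, ← mul_add, ← mul_add]
      exact mul_le_mul_of_nonneg_left h6 (by positivity)

theorem step_cell {p : ℝ} (hp0 : 0 ≤ p) (hp1 : p ≤ 1) {Y L H : Finset ℕ} {h K : ℕ} {ε : ℝ}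
    (hε : 0 ≤ ε) (hL : L.card = K) (hH : H.card = K) (hK : 0 < K)
    (hLH : Disjoint L H) (hsum : ∑ u ∈ H, u = (∑ u ∈ L, u) + h)
    (hS : Step p Y h ε) (hd : Disjoint Y (L ∪ H)) :
    Step p (Y ∪ (L ∪ H)) h ((1 - 2 * (p * (1 - p)) ^ K) * ε) := by
  intro g G h0 h1 h2 h3
  rw [Finset.union_comm, Ex_union_sum hd.symm, Ex_union_sum hd.symm]
  set g1 : ℕ → ℝ := fun s => Ex p Y (fun B => g (s + ∑ u ∈ B, u)) with hg1
  set G1 : ℕ → ℝ := fun s => Ex p Y (fun B => G (s + ∑ u ∈ B, u)) with hG1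
  show Ex p (L ∪ H) (fun A => g1 (∑ u ∈ A, u)) ≤ Ex p (L ∪ H) (fun A => G1 (∑ u ∈ A, u)) + _
  have hgG : ∀ s, g1 s ≤ G1 s + ε := by
    intro s
    exact hS (fun r => g (s + r)) (fun r => G (s + r)) (fun _ => h0 _) (fun _ => h1 _)
      (fun _ => h2 _) (fun r => by have := h3 (s + r); simpa [add_assoc] using this)
  have hpair : ∀ s, g1 s + g1 (s + h) ≤ G1 s + G1 (s + h) := by
    intro s
    simp only [hg1, hG1]
    rw [← Ex_add, ← Ex_add]
    apply Ex_mono hp0 hp1
    intro B _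
    have := h3 (s + ∑ u ∈ B, u)
    have e : s + h + ∑ u ∈ B, u = s + ∑ u ∈ B, u + h := by ring
    rw [e]; exact this
  have hLne : L ≠ H := by
    intro e
    rw [e] at hLH
    have := Finset.disjoint_self_iff_empty H |>.mp hLH
    rw [this] at hH
    simp at hH
    omega
  have hcard : (L ∪ H).card = 2 * K := by
    rw [Finset.card_union_of_disjoint hLH, hL, hH]; ring
  set w : Finset ℕ → ℝ := fun A => p ^ A.card * (1 - p) ^ ((L ∪ H).card - A.card) with hw
  have hwnn : ∀ A, 0 ≤ w A := by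
    intro A
    have : 0 ≤ 1 - p := by linarith
    simp only [hw]; positivity
  have hwL : w L = (p * (1 - p)) ^ K := by
    simp only [hw]; rw [hcard, hL, mul_pow]; congr 2; omega
  have hwH : w H = (p * (1 - p)) ^ K := by
    simp only [hw]; rw [hcard, hH, mul_pow]; congr 2; omega
  have hsplit : ∀ k : Finset ℕ → ℝ, Ex p (L ∪ H) k =
      w L * k L + w H * k H + ∑ A ∈ ((L ∪ H).powerset.erase L).erase H, w A * k A := by
    intro k
    unfold Ex
    have hLm : L ∈ (L ∪ H).powerset :=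
      Finset.mem_powerset.mpr Finset.subset_union_left
    have hHm : H ∈ ((L ∪ H).powerset.erase L) :=
      Finset.mem_erase.mpr ⟨hLne.symm, Finset.mem_powerset.mpr Finset.subset_union_right⟩
    rw [← Finset.add_sum_erase _ _ hLm, ← Finset.add_sum_erase _ _ hHm]
    ring
  have htot : ∑ A ∈ ((L ∪ H).powerset.erase L).erase H, w A = 1 - 2 * (p * (1 - p)) ^ K := by
    have := hsplit (fun _ => 1)
    rw [Ex_const] at this
    simp only [mul_one] at this
    rw [hwL, hwH] at this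
    linarith
  rw [hsplit, hsplit]
  have e1 : w L * g1 (∑ u ∈ L, u) + w H * g1 (∑ u ∈ H, u) ≤
      w L * G1 (∑ u ∈ L, u) + w H * G1 (∑ u ∈ H, u) := by
    rw [hwL, hwH, hsum, ← mul_add, ← mul_add]
    apply mul_le_mul_of_nonneg_left (hpair _)
    have : 0 ≤ 1 - p := by linarith
    positivity
  have e2 : ∑ A ∈ ((L ∪ H).powerset.erase L).erase H, w A * g1 (∑ u ∈ A, u) ≤
      ∑ A ∈ ((L ∪ H).powerset.erase L).erase H, w A * G1 (∑ u ∈ A, u) +
        (1 - 2 * (p * (1 - p)) ^ K) * ε := by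
    rw [← htot, Finset.sum_mul, ← Finset.sum_add_distrib]
    apply Finset.sum_le_sum
    intro A _
    rw [← mul_add]
    exact mul_le_mul_of_nonneg_left (hgG _) (hwnn A)
  linarith

end Pool.Agent.H77CS
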