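import Mathlib
import Pool.Agent.H77CS.Basic

open Finset

namespace Pool.Agent.H77CS

theorem step_superset {p : ℝ} (hp0 : 0 ≤ p) (hp1 : p ≤ 1) {Y Z : Finset ℕ} {h : ℕ} {ε : ℝ}
    (hS : Step p Y h ε) (hd : Y ⊆ Z) : Step p Z h ε := by
  rw [← Finset.union_sdiff_of_subset hd]
  exact step_extra hp0 hp1 hS Finset.disjoint_sdiff

theorem unif_superset {p : ℝ} (hp0 : 0 ≤ p) (hp1 : p ≤ 1) {Y Z : Finset ℕ} {W : ℕ} {ε : ℝ}
    (hS : Unif p Y W ε) (hd : Y ⊆ Z) : Unif p Z W ε := by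
  rw [← Finset.union_sdiff_of_subset hd]
  exact unif_extra hp0 hp1 hS Finset.disjoint_sdiff

theorem step_mono {p : ℝ} {Y : Finset ℕ} {h : ℕ} {ε ε' : ℝ}
    (hS : Step p Y h ε) (hε : ε ≤ ε') : Step p Y h ε' := by
  intro g G h0 h1 h2 h3
  have := hS g G h0 h1 h2 h3
  linarith

/-- failure probability of one cell with `K` low and `K` high positions -/
noncomputable def eta (p : ℝ) (K : ℕ) : ℝ := 1 - 2 * (p * (1 - p)) ^ K

theorem pq_le {p : ℝ} : p * (1 - p) ≤ 1 / 4 := by nlinarith [sq_nonneg (p - 1/2)]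

theorem eta_nonneg {p : ℝ} (hp0 : 0 ≤ p) (hp1 : p ≤ 1) {K : ℕ} (hK : 0 < K) :
    0 ≤ eta p K := by
  unfold eta
  have h0 : 0 ≤ p * (1 - p) := mul_nonneg hp0 (by linarith)
  have h1 := pq_le (p := p)
  have : (p * (1 - p)) ^ K ≤ (p * (1 - p)) ^ 1 :=
    pow_le_pow_of_le_one h0 (by linarith) hK
  simp at this
  linarith

theorem eta_le_one {p : ℝ} (hp0 : 0 ≤ p) (hp1 : p ≤ 1) {K : ℕ} : eta p K ≤ 1 := by
  unfold eta
  have h0 : 0 ≤ p * (1 - p) := mul_nonneg hp0 (by linarith)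
  have : 0 ≤ (p * (1 - p)) ^ K := by positivity
  linarith

theorem eta_lt_one {p : ℝ} (hp0 : 0 < p) (hp1 : p < 1) {K : ℕ} : eta p K < 1 := by
  unfold eta
  have h0 : 0 < p * (1 - p) := mul_pos hp0 (by linarith)
  have : 0 < (p * (1 - p)) ^ K := by positivity
  linarith

theorem eta_one_le {p : ℝ} (hp0 : 0 ≤ p) (hp1 : p ≤ 1) {K : ℕ} (hK : 0 < K) :
    eta p 1 ≤ eta p K := by
  unfold eta
  have h0 : 0 ≤ p * (1 - p) := mul_nonneg hp0 (by linarith)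
  have h1 := pq_le (p := p)
  have : (p * (1 - p)) ^ K ≤ (p * (1 - p)) ^ 1 :=
    pow_le_pow_of_le_one h0 (by linarith) hK
  linarith

theorem step_small {p : ℝ} (hp0 : 0 ≤ p) (hp1 : p ≤ 1) (α h : ℕ) (hh : 0 < h) (N : ℕ) :
    Step p (Ioc α (α + 2 * h * N)) h (eta p 1 ^ N) := by
  induction N with
  | zero => simpa using step_empty p h
  | succ N ih =>
    have hc := step_cell hp0 hp1 (Y := Ioc α (α + 2 * h * N))
      (L := {α + 2 * h * N + 1}) (H := {α + 2 * h * N + 1 + h}) (K := 1)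
      (pow_nonneg (eta_nonneg hp0 hp1 one_pos) N) (by simp) (by simp) one_pos
      (by simp; omega) (by simp) ih
      (by
        rw [Finset.disjoint_left]
        intro x hx hx'
        simp only [mem_Ioc, mem_union, mem_singleton] at hx hx'
        omega)
    have e : eta p 1 ^ (N + 1) = (1 - 2 * (p * (1 - p)) ^ 1) * eta p 1 ^ N := by
      rw [pow_succ, mul_comm]; rfl
    rw [e]
    apply step_superset hp0 hp1 hc
    intro x hx
    simp only [mem_Ioc, mem_union, mem_singleton] at hx ⊢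
    have : 2 * h * (N + 1) = 2 * h * N + 2 * h := by ring
    omega

theorem step_large_aux {p : ℝ} (hp0 : 0 ≤ p) (hp1 : p ≤ 1) (α K D : ℕ) (hK : 0 < K) (N : ℕ)
    (hN : N * K ≤ D) :
    Step p (Ioc α (α + N * K) ∪ Ioc (α + D) (α + D + N * K)) (K * D) (eta p K ^ N) := by
  induction N with
  | zero => simpa using step_empty p (K * D)
  | succ N ih =>
    have e0 : (N + 1) * K = N * K + K := by ring
    rw [e0] at hN ⊢
    have ih' := ih (by omega)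
    set q := N * K with hq
    have hc := step_cell hp0 hp1 (Y := Ioc α (α + q) ∪ Ioc (α + D) (α + D + q))
      (L := Ioc (α + q) (α + q + K)) (H := Ioc (α + q + D) (α + q + K + D)) (K := K) (h := K * D)
      (pow_nonneg (eta_nonneg hp0 hp1 hK) N) (by simp) (by simp; omega) hK
      (by
        rw [Finset.disjoint_left]
        intro x hx hx'
        simp only [mem_Ioc] at hx hx'
        omega)
      (by
        rw [← Finset.map_add_right_Ioc, Finset.sum_map]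
        simp only [addRightEmbedding_apply]
        rw [Finset.sum_add_distrib]
        simp)
      ih'
      (by
        rw [Finset.disjoint_left]
        intro x hx hx'
        simp only [mem_Ioc, mem_union] at hx hx'
        omega)
    have e : eta p K ^ (N + 1) = (1 - 2 * (p * (1 - p)) ^ K) * eta p K ^ N := by
      rw [pow_succ, mul_comm]; rfl
    rw [e]
    apply step_superset hp0 hp1 hc
    intro x hx
    simp only [mem_Ioc, mem_union] at hx ⊢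
    omega

theorem step_large {p : ℝ} (hp0 : 0 ≤ p) (hp1 : p ≤ 1) (α K D : ℕ) (hK : 0 < K) (N : ℕ)
    (hN : N * K ≤ D) :
    Step p (Ioc α (α + 2 * D)) (K * D) (eta p K ^ N) := by
  apply step_superset hp0 hp1 (step_large_aux hp0 hp1 α K D hK N hN)
  intro x hx
  simp only [mem_Ioc, mem_union] at hx ⊢
  omega

theorem unif_small {p : ℝ} (hp0 : 0 ≤ p) (hp1 : p ≤ 1) (α K N : ℕ) (hK : 0 < K) (i : ℕ) :
    Unif p (Ioc α (α + 2 * N * (2 ^ i - 1))) (2 ^ i) (i * eta p K ^ N) := by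
  induction i with
  | zero => simpa using unif_zero p
  | succ i ih =>
    have h1 := step_small hp0 hp1 (α + 2 * N * (2 ^ i - 1)) (2 ^ i) (by positivity) N
    have h2 : Step p (Ioc (α + 2 * N * (2 ^ i - 1)) (α + 2 * N * (2 ^ i - 1) + 2 * 2 ^ i * N))
        (2 ^ i) (eta p K ^ N) :=
      step_mono h1 (pow_le_pow_left₀ (eta_nonneg hp0 hp1 one_pos) (eta_one_le hp0 hp1 hK) N)
    have h3 := unif_comp hp0 hp1 (by positivity) (pow_nonneg (eta_nonneg hp0 hp1 hK) N) ih h2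
      (by
        rw [Finset.disjoint_left]
        intro x hx hx'
        simp only [mem_Ioc] at hx hx'
        omega)
    have e1 : (2 : ℕ) ^ (i + 1) = 2 * 2 ^ i := by rw [pow_succ, mul_comm]
    have e2 : ((i + 1 : ℕ) : ℝ) * eta p K ^ N = (i * eta p K ^ N) + eta p K ^ N := by
      push_cast; ring
    rw [e1, e2]
    apply unif_superset hp0 hp1 h3
    intro x hx
    simp only [mem_Ioc, mem_union] at hx ⊢
    have h4 : 1 ≤ 2 ^ i := Nat.one_le_two_pow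
    have e3 : 2 * N * (2 * 2 ^ i - 1) = 2 * N * (2 ^ i - 1) + 2 * 2 ^ i * N := by
      obtain ⟨z, hz⟩ := Nat.exists_eq_add_of_le h4
      rw [hz]
      have : 2 * (1 + z) - 1 = 1 + 2 * z := by omega
      rw [this]
      have : 1 + z - 1 = z := by omega
      rw [this]; ring
    rw [e3]
    omega

theorem unif_large {p : ℝ} (hp0 : 0 ≤ p) (hp1 : p ≤ 1) (α κ N r : ℕ) (hr : N * 2 ^ κ ≤ 2 ^ r)
    (t : ℕ) :
    Unif p (Ioc α (α + (2 * N * (2 ^ (κ + r) - 1) + 2 * (2 ^ (r + t) - 2 ^ r))))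
      (2 ^ (κ + r + t)) ((κ + r + t : ℕ) * eta p (2 ^ κ) ^ N) := by
  have hK : 0 < 2 ^ κ := by positivity
  induction t with
  | zero => simpa using unif_small hp0 hp1 α (2 ^ κ) N hK (κ + r)
  | succ t ih =>
    have hD : 2 ^ r ≤ 2 ^ (r + t) := Nat.pow_le_pow_right (by norm_num) (by omega)
    have h1 := step_large hp0 hp1
      (α + (2 * N * (2 ^ (κ + r) - 1) + 2 * (2 ^ (r + t) - 2 ^ r))) (2 ^ κ) (2 ^ (r + t)) hK N
      (hr.trans hD)
    have e0 : 2 ^ κ * 2 ^ (r + t) = 2 ^ (κ + r + t) := by rw [← pow_add, add_assoc]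
    rw [e0] at h1
    have h3 := unif_comp hp0 hp1 (by positivity) (pow_nonneg (eta_nonneg hp0 hp1 hK) N) ih h1
      (by
        rw [Finset.disjoint_left]
        intro x hx hx'
        simp only [mem_Ioc] at hx hx'
        omega)
    have e1 : (2 : ℕ) ^ (κ + r + (t + 1)) = 2 * 2 ^ (κ + r + t) := by
      rw [← add_assoc, pow_succ, mul_comm]
    have e2 : ((κ + r + (t + 1) : ℕ) : ℝ) * eta p (2 ^ κ) ^ N =
        ((κ + r + t : ℕ) * eta p (2 ^ κ) ^ N) + eta p (2 ^ κ) ^ N := by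
      push_cast; ring
    rw [e1, e2]
    apply unif_superset hp0 hp1 h3
    intro x hx
    simp only [mem_Ioc, mem_union] at hx ⊢
    have e3 : 2 ^ (r + (t + 1)) = 2 * 2 ^ (r + t) := by rw [← add_assoc, pow_succ, mul_comm]
    rw [e3]
    omega

/-- error term -/
noncomputable def err (p : ℝ) (κ Λ : ℕ) : ℝ :=
  (Λ : ℝ) * eta p (2 ^ κ) ^ (2 ^ ((Λ - 3 * κ) / 2))

theorem unif_main {p : ℝ} (hp0 : 0 ≤ p) (hp1 : p ≤ 1) (α κ Λ ℓ : ℕ) (h3 : 3 * κ ≤ Λ)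
    (hℓ : 2 ^ (Λ + 2 - κ) ≤ ℓ) :
    Unif p (Ioc α (α + ℓ)) (2 ^ Λ) (err p κ Λ) := by
  set ν := (Λ - 3 * κ) / 2 with hν
  have hr : 2 ^ ν * 2 ^ κ ≤ 2 ^ (ν + κ) := by rw [← pow_add]
  have h := unif_large hp0 hp1 α κ (2 ^ ν) (ν + κ) hr (Λ - κ - (ν + κ))
  have e1 : κ + (ν + κ) + (Λ - κ - (ν + κ)) = Λ := by omega
  rw [e1] at h
  have e2 : ν + κ + (Λ - κ - (ν + κ)) = Λ - κ := by omega
  rw [e2] at h
  apply unif_superset hp0 hp1 h
  intro x hx
  simp only [mem_Ioc] at hx ⊢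
  have h5 : 2 * 2 ^ ν * (2 ^ (κ + (ν + κ)) - 1) ≤ 2 ^ (Λ + 1 - κ) := by
    calc 2 * 2 ^ ν * (2 ^ (κ + (ν + κ)) - 1) ≤ 2 * 2 ^ ν * 2 ^ (κ + (ν + κ)) :=
          Nat.mul_le_mul_left _ (Nat.sub_le _ _)
      _ = 2 ^ (1 + ν + (κ + (ν + κ))) := by rw [pow_add 2 (1 + ν), pow_add 2 1 ν, pow_one]
      _ ≤ 2 ^ (Λ + 1 - κ) := Nat.pow_le_pow_right (by norm_num) (by omega)
  have h6 : 2 * (2 ^ (Λ - κ) - 2 ^ (ν + κ)) ≤ 2 ^ (Λ + 1 - κ) := by
    calc 2 * (2 ^ (Λ - κ) - 2 ^ (ν + κ)) ≤ 2 * 2 ^ (Λ - κ) :=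
          Nat.mul_le_mul_left _ (Nat.sub_le _ _)
      _ = 2 ^ (Λ - κ + 1) := by rw [pow_succ, mul_comm]
      _ = 2 ^ (Λ + 1 - κ) := by congr 1; omega
  have h7 : 2 ^ (Λ + 2 - κ) = 2 ^ (Λ + 1 - κ) + 2 ^ (Λ + 1 - κ) := by
    have : Λ + 2 - κ = (Λ + 1 - κ) + 1 := by omega
    rw [this, pow_succ]; ring
  omega

theorem err_nonneg {p : ℝ} (hp0 : 0 ≤ p) (hp1 : p ≤ 1) (κ Λ : ℕ) : 0 ≤ err p κ Λ := by
  unfold err
  have := eta_nonneg hp0 hp1 (K := 2 ^ κ) (by positivity)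
  positivity

open Filter Topology in
/-- the error beats every polynomial in `2 ^ Λ`; here the fourth power -/
theorem err_tendsto {p : ℝ} (hp0 : 0 < p) (hp1 : p < 1) (κ : ℕ) :
    Tendsto (fun Λ : ℕ => (2 : ℝ) ^ (8 * Λ) * err p κ Λ) atTop (𝓝 0) := by
  set η := eta p (2 ^ κ) with hη
  have h0 : 0 ≤ η := eta_nonneg hp0.le hp1.le (by positivity)
  have h1 : η < 1 := eta_lt_one hp0 hp1
  -- x = 2 ^ ((Λ - 3κ)/2)
  have hx : Tendsto (fun Λ : ℕ => 2 ^ ((Λ - 3 * κ) / 2)) atTop atTop := by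
    have h2 : Tendsto (fun Λ : ℕ => (Λ - 3 * κ) / 2) atTop atTop := by
      apply tendsto_atTop.mpr
      intro b
      filter_upwards [eventually_ge_atTop (2 * b + 3 * κ)] with Λ hΛ
      omega
    exact (tendsto_pow_atTop_atTop_of_one_lt (by norm_num : (1:ℕ) < 2)).comp h2
  have h2 : Tendsto (fun x : ℕ => (x : ℝ) ^ 18 * η ^ x) atTop (𝓝 0) :=
    tendsto_pow_const_mul_const_pow_of_abs_lt_one 18 (by rw [abs_of_nonneg h0]; exact h1)
  have h3 := (h2.comp hx).const_mul ((2 : ℝ) ^ (9 * (3 * κ + 1)))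
  rw [mul_zero] at h3
  apply squeeze_zero_norm' _ h3
  filter_upwards [eventually_ge_atTop (3 * κ)] with Λ hΛ
  have herr := err_nonneg hp0.le hp1.le κ Λ
  rw [Real.norm_of_nonneg (by positivity)]
  simp only [Function.comp]
  unfold err
  rw [← hη]
  set ν := (Λ - 3 * κ) / 2 with hν
  have hΛν : Λ ≤ 2 * ν + (3 * κ + 1) := by omega
  have h4 : (Λ : ℝ) ≤ (2 : ℝ) ^ Λ := by
    exact_mod_cast Nat.lt_two_pow_self.le
  have h5 : (2 : ℝ) ^ (8 * Λ) * Λ ≤ (2 : ℝ) ^ (9 * (3 * κ + 1)) * ((2 : ℝ) ^ ν) ^ 18 := by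
    calc (2 : ℝ) ^ (8 * Λ) * Λ ≤ (2 : ℝ) ^ (8 * Λ) * 2 ^ Λ := by gcongr
      _ = (2 : ℝ) ^ (9 * Λ) := by rw [← pow_add]; congr 1; ring
      _ ≤ (2 : ℝ) ^ (9 * (2 * ν + (3 * κ + 1))) := by
          apply pow_le_pow_right₀ (by norm_num); omega
      _ = (2 : ℝ) ^ (9 * (3 * κ + 1)) * ((2 : ℝ) ^ ν) ^ 18 := by
          rw [← pow_mul, ← pow_add]; congr 1; ring
  have h6 : 0 ≤ η ^ (2 ^ ν) := by positivity
  calc (2 : ℝ) ^ (8 * Λ) * (Λ * η ^ (2 ^ ν)) = (2 : ℝ) ^ (8 * Λ) * Λ * η ^ (2 ^ ν) := by ring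
    _ ≤ ((2 : ℝ) ^ (9 * (3 * κ + 1)) * ((2 : ℝ) ^ ν) ^ 18) * η ^ (2 ^ ν) :=
        mul_le_mul_of_nonneg_right h5 h6
    _ = _ := by push_cast; ring

end Pool.Agent.H77CS
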