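import Mathlib
import Pool.Agent.H77CS.Unif

open Finset

namespace Pool.Agent.H77CS

/-- sum of the elements of `A` in `(y, z]` -/
def S (A : Finset ℕ) (y z : ℕ) : ℕ := ∑ u ∈ A.filter (fun u => y < u ∧ u ≤ z), u

/-- number of elements of `A` in `(y, z]` -/
def ct (A : Finset ℕ) (y z : ℕ) : ℕ := (A.filter (fun u => y < u ∧ u ≤ z)).card

theorem filter_add {A : Finset ℕ} {y z w : ℕ} (h1 : y ≤ z) (h2 : z ≤ w) :
    A.filter (fun u => y < u ∧ u ≤ w) =
      A.filter (fun u => y < u ∧ u ≤ z) ∪ A.filter (fun u => z < u ∧ u ≤ w) := by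
  ext u
  simp only [mem_filter, mem_union]
  constructor
  · rintro ⟨h, h3, h4⟩
    by_cases h5 : u ≤ z
    · left; exact ⟨h, h3, h5⟩
    · right; exact ⟨h, by omega, h4⟩
  · rintro (⟨h, h3, h4⟩ | ⟨h, h3, h4⟩)
    · exact ⟨h, h3, by omega⟩
    · exact ⟨h, by omega, h4⟩

theorem filter_disj {A : Finset ℕ} {y z w : ℕ} :
    Disjoint (A.filter (fun u => y < u ∧ u ≤ z)) (A.filter (fun u => z < u ∧ u ≤ w)) := by
  rw [Finset.disjoint_left]
  intro u h1 h2
  simp only [mem_filter] at h1 h2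
  omega

theorem S_add {A : Finset ℕ} {y z w : ℕ} (h1 : y ≤ z) (h2 : z ≤ w) :
    S A y w = S A y z + S A z w := by
  unfold S
  rw [filter_add h1 h2, Finset.sum_union filter_disj]

theorem ct_add {A : Finset ℕ} {y z w : ℕ} (h1 : y ≤ z) (h2 : z ≤ w) :
    ct A y w = ct A y z + ct A z w := by
  unfold ct
  rw [filter_add h1 h2, Finset.card_union_of_disjoint filter_disj]

theorem S_le (A : Finset ℕ) (y z : ℕ) : S A y z ≤ ct A y z * z := by
  unfold S ct
  rw [← smul_eq_mul]
  apply Finset.sum_le_card_nsmul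
  intro u hu
  exact (mem_filter.mp hu).2.2

theorem S_ge (A : Finset ℕ) (y z : ℕ) : ct A y z * (y + 1) ≤ S A y z := by
  unfold S ct
  rw [← smul_eq_mul]
  apply Finset.card_nsmul_le_sum
  intro u hu
  exact (mem_filter.mp hu).2.1

theorem ct_le (A : Finset ℕ) (y z : ℕ) : ct A y z ≤ z - y := by
  unfold ct
  calc (A.filter (fun u => y < u ∧ u ≤ z)).card ≤ (Ioc y z).card := by
        apply Finset.card_le_card
        intro u hu
        simp only [mem_filter, mem_Ioc] at hu ⊢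
        exact hu.2
    _ = z - y := by simp

theorem ct_pos {A : Finset ℕ} {y z : ℕ} (h : y < z) (hz : z ∈ A) : 0 < ct A y z := by
  unfold ct
  rw [Finset.card_pos]
  exact ⟨z, by simp [hz, h]⟩

theorem S_pos {A : Finset ℕ} {y z : ℕ} (h : y < z) (hz : z ∈ A) : 0 < S A y z := by
  have h1 := S_ge A y z
  have h2 := ct_pos h hz
  have : 0 < ct A y z * (y + 1) := by positivity
  omega

theorem window_gap {A : Finset ℕ} {y z y' z' k : ℕ} (hyz : y < z) (hz : z ∈ A)
    (hyy : y < y') (hzz : z < z') (hy' : y' ∈ A)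
    (h1 : ct A y y' = k) (h2 : ct A z z' = k) : S A y y' + k ≤ S A z z' := by
  rcases le_or_gt y' z with h | h
  · have e1 := S_le A y y'
    have e2 := S_ge A z z'
    rw [h1] at e1
    rw [h2] at e2
    have e3 : k * y' ≤ k * z := Nat.mul_le_mul_left _ h
    have e4 : k * (z + 1) = k * z + k := by ring
    omega
  · have hz'y' : y' ≤ z' := by
      by_contra hcon
      push Not at hcon
      have e1 := ct_add (A := A) hyz.le (h.le)
      have e2 := ct_add (A := A) hzz.le hcon.le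
      have e3 := ct_pos hyz hz
      omega
    have e1 := S_add (A := A) hyz.le h.le
    have e2 := S_add (A := A) h.le hz'y'
    have e3 := ct_add (A := A) hyz.le h.le
    have e4 := ct_add (A := A) h.le hz'y'
    have e5 := ct_pos hyz hz
    set c := ct A y z with hc
    have e6 : ct A y' z' = c := by omega
    have e7 := S_le A y z
    have e8 := S_ge A y' z'
    rw [← hc] at e7
    rw [e6] at e8
    have e9 := ct_le A z y'
    set d := ct A z y' with hd
    have e10 : k = c + d := by omega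
    -- c * (y' + 1) ≥ c * z + c * (d+1)
    have e11 : c * (z + (d + 1)) ≤ c * (y' + 1) := Nat.mul_le_mul_left _ (by omega)
    have e12 : c * (z + (d + 1)) = c * z + c * (d + 1) := by ring
    have e13 : c + d ≤ c * (d + 1) := by
      obtain ⟨c', hc'⟩ : ∃ c', c = c' + 1 := ⟨c - 1, by omega⟩
      rw [hc']
      nlinarith [Nat.zero_le (c' * d)]
    omega

/-- windows of `A` whose sum is within distance `< W` of `T` -/
def winSet (A : Finset ℕ) (T W : ℕ) : Finset (Σ _ : ℕ, ℕ) :=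
  A.sigma (fun y => A.filter (fun y' => y < y' ∧ T < S A y y' + W ∧ S A y y' < T + W))

theorem winSet_card {A : Finset ℕ} {n α β T W : ℕ} (hA : A ⊆ Ioc α (α + β)) (hn : 0 < n)
    (hα : n ≤ 2 * α) (hβ : α + β ≤ n) (hW0 : 0 < W) (hWn : W ≤ n) (hWT : W = 1 ∨ n * W ≤ T) :
    ((winSet A T W).card : ℝ) ≤ 2 + 8 * T * β / n ^ 2 + 8 * W / n := by
  have hα0 : 0 < α := by omega
  set a : ℝ := ((T : ℝ) - W) / (α + β) with ha
  set b : ℝ := ((T : ℝ) + W) / α with hb
  have hαr : (0 : ℝ) < α := by exact_mod_cast hα0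
  have hβr : (0 : ℝ) ≤ β := by positivity
  have hnr : (0 : ℝ) < n := by exact_mod_cast hn
  have hαn : (n : ℝ) ≤ 2 * α := by exact_mod_cast hα
  have hbn : (α : ℝ) + β ≤ n := by exact_mod_cast hβ
  have hWr : (0 : ℝ) < W := by exact_mod_cast hW0
  -- basic facts for members
  have mem : ∀ q ∈ winSet A T W, q.1 ∈ A ∧ q.2 ∈ A ∧ q.1 < q.2 ∧ T < S A q.1 q.2 + W ∧
      S A q.1 q.2 < T + W := by
    intro q hq
    simp only [winSet, mem_sigma, mem_filter] at hq
    exact ⟨hq.1, hq.2.1, hq.2.2.1, hq.2.2.2.1, hq.2.2.2.2⟩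
  have hctW : ∀ q ∈ winSet A T W, W ≤ ct A q.1 q.2 := by
    intro q hq
    obtain ⟨h1, h2, h3, h4, h5⟩ := mem q hq
    rcases hWT with h | h
    · have := ct_pos h3 h2
      omega
    · by_contra hcon
      push Not at hcon
      have e1 := S_le A q.1 q.2
      have e2 := (mem_Ioc.mp (hA h2)).2
      have e3 : ct A q.1 q.2 * q.2 ≤ (W - 1) * n :=
        Nat.mul_le_mul (by omega) (by omega)
      have e4 : (W - 1) * n + n = n * W := by
        obtain ⟨w, hw⟩ : ∃ w, W = w + 1 := ⟨W - 1, by omega⟩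
        rw [hw]
        simp
        ring
      omega
  have hmaps : ∀ q ∈ winSet A T W, (((ct A q.1 q.2 : ℕ) : ℤ), (S A q.1 q.2 + W - T) / ct A q.1 q.2)
      ∈ (Finset.Icc (⌊a⌋ + 1) ⌊b⌋) ×ˢ (range 2) := by
    intro q hq
    obtain ⟨h1, h2, h3, h4, h5⟩ := mem q hq
    have hc := hctW q hq
    have e1 := S_le A q.1 q.2
    have e2 := (mem_Ioc.mp (hA h2)).2
    have e2' := (mem_Ioc.mp (hA h1)).1
    have e3 := S_ge A q.1 q.2
    have e4 : ct A q.1 q.2 * q.2 ≤ ct A q.1 q.2 * (α + β) := Nat.mul_le_mul_left _ e2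
    have e5 : ct A q.1 q.2 * α ≤ ct A q.1 q.2 * (q.1 + 1) := Nat.mul_le_mul_left _ (by omega)
    rw [mem_product, mem_Icc, mem_range]
    refine ⟨⟨?_, ?_⟩, ?_⟩
    · rw [Int.add_one_le_iff, Int.floor_lt, ha, div_lt_iff₀ (by positivity)]
      have h6 : T < ct A q.1 q.2 * (α + β) + W := by omega
      have h7 : (T : ℝ) < ct A q.1 q.2 * (α + β) + W := by exact_mod_cast h6
      push_cast
      linarith
    · rw [Int.le_floor, hb, le_div_iff₀ hαr]
      have h6 : ct A q.1 q.2 * α ≤ T + W := by omega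
      have h7 : (ct A q.1 q.2 : ℝ) * α ≤ T + W := by exact_mod_cast h6
      push_cast
      linarith
    · rw [Nat.div_lt_iff_lt_mul (by omega)]
      omega
  have hinj : Set.InjOn (fun q : (Σ _ : ℕ, ℕ) =>
      (((ct A q.1 q.2 : ℕ) : ℤ), (S A q.1 q.2 + W - T) / ct A q.1 q.2))
      (winSet A T W : Set (Σ _ : ℕ, ℕ)) := by
    have aux : ∀ q ∈ winSet A T W, ∀ q' ∈ winSet A T W, ct A q.1 q.2 = ct A q'.1 q'.2 →
        (S A q.1 q.2 + W - T) / ct A q.1 q.2 = (S A q'.1 q'.2 + W - T) / ct A q'.1 q'.2 →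
        ¬ q.1 < q'.1 := by
      intro q hq q' hq' hct hdiv hlt
      obtain ⟨h1, h2, h3, h4, h5⟩ := mem q hq
      obtain ⟨h1', h2', h3', h4', h5'⟩ := mem q' hq'
      have hg := window_gap hlt h1' h3 h3' h2 rfl hct.symm
      have hc0 := ct_pos h3 h2
      rw [← hct] at hdiv
      have h6 : (S A q.1 q.2 + W - T + ct A q.1 q.2) / ct A q.1 q.2 ≤
          (S A q'.1 q'.2 + W - T) / ct A q.1 q.2 := Nat.div_le_div_right (by omega)
      rw [Nat.add_div_right _ hc0] at h6
      omega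
    have aux2 : ∀ q ∈ winSet A T W, ∀ q' ∈ winSet A T W, ct A q.1 q.2 = ct A q'.1 q'.2 →
        q.1 = q'.1 → ¬ q.2 < q'.2 := by
      intro q hq q' hq' hct he hlt
      obtain ⟨h1, h2, h3, h4, h5⟩ := mem q hq
      obtain ⟨h1', h2', h3', h4', h5'⟩ := mem q' hq'
      have e1 := ct_add (A := A) h3.le hlt.le
      have e2 := ct_pos hlt h2'
      rw [← he] at hct
      omega
    intro q hq q' hq' heq
    simp only [Prod.mk.injEq, Nat.cast_inj] at heq
    obtain ⟨hct, hdiv⟩ := heq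
    have hq0 := Finset.mem_coe.mp hq
    have hq0' := Finset.mem_coe.mp hq'
    have h1 : q.1 = q'.1 := by
      rcases lt_trichotomy q.1 q'.1 with h | h | h
      · exact absurd h (aux q hq0 q' hq0' hct hdiv)
      · exact h
      · exact absurd h (aux q' hq0' q hq0 hct.symm hdiv.symm)
    have h2 : q.2 = q'.2 := by
      rcases lt_trichotomy q.2 q'.2 with h | h | h
      · exact absurd h (aux2 q hq0 q' hq0' hct h1)
      · exact h
      · exact absurd h (aux2 q' hq0' q hq0 hct.symm h1.symm)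
    obtain ⟨q1, q2⟩ := q
    obtain ⟨q1', q2'⟩ := q'
    simp only at h1 h2
    subst h1; subst h2; rfl
  have hcard := Finset.card_le_card_of_injOn _ hmaps hinj
  rw [Finset.card_product, Int.card_Icc, Finset.card_range] at hcard
  have hab : b - a ≤ 4 * T * β / n ^ 2 + 4 * W / n := by
    have h1 : b - a = (T * β + W * (2 * α + β)) / (α * (α + β)) := by
      rw [ha, hb, div_sub_div _ _ (by positivity) (by positivity)]
      congr 1
      ring
    have h2 : (n : ℝ) ^ 2 / 4 ≤ α * (α + β) := by nlinarith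
    have h3 : (T * β + W * (2 * α + β)) / (α * (α + β)) =
        (T * β) / ((α : ℝ) * (α + β)) + (W * (2 * α + β)) / (α * (α + β)) := by
      rw [add_div]
    have h4 : (T * β) / ((α : ℝ) * (α + β)) ≤ 4 * T * β / n ^ 2 := by
      rw [div_le_div_iff₀ (by positivity) (by positivity)]
      have : (0 : ℝ) ≤ T * β := by positivity
      nlinarith
    have h5 : (W * (2 * α + β)) / ((α : ℝ) * (α + β)) ≤ 4 * W / n := by
      rw [div_le_div_iff₀ (by positivity) (by positivity)]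
      have h6 : (2 * (α : ℝ) + β) * n ≤ 4 * (α * (α + β)) := by nlinarith
      nlinarith
    linarith
  have hab0 : 0 ≤ b - a := by
    have h1 : b - a = (T * β + W * (2 * α + β)) / (α * (α + β)) := by
      rw [ha, hb, div_sub_div _ _ (by positivity) (by positivity)]
      congr 1
      ring
    rw [h1]; positivity
  have hfl : (((⌊b⌋ + 1 - (⌊a⌋ + 1)).toNat : ℕ) : ℝ) ≤ b - a + 1 := by
    have h1 : (⌊b⌋ : ℝ) ≤ b := Int.floor_le b
    have h2 : a - 1 < ⌊a⌋ := Int.sub_one_lt_floor a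
    rcases le_or_gt 0 (⌊b⌋ + 1 - (⌊a⌋ + 1)) with h | h
    · have h3 : (((⌊b⌋ + 1 - (⌊a⌋ + 1)).toNat : ℕ) : ℤ) = ⌊b⌋ + 1 - (⌊a⌋ + 1) :=
        Int.toNat_of_nonneg h
      have h4 : (((⌊b⌋ + 1 - (⌊a⌋ + 1)).toNat : ℕ) : ℝ) = ((⌊b⌋ + 1 - (⌊a⌋ + 1) : ℤ) : ℝ) := by
        exact_mod_cast h3
      rw [h4]
      push_cast
      linarith
    · rw [Int.toNat_of_nonpos h.le]
      push_cast
      linarith
  have hcard' : ((winSet A T W).card : ℝ) ≤
      (((⌊b⌋ + 1 - (⌊a⌋ + 1)).toNat : ℕ) : ℝ) * 2 := by exact_mod_cast hcard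
  have e : (2 : ℝ) + 8 * T * β / n ^ 2 + 8 * W / n = 2 + 2 * (4 * T * β / n ^ 2 + 4 * W / n) := by
    ring
  rw [e]
  linarith

end Pool.Agent.H77CS
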