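import Mathlib
import Pool.Agent.H77CS.Win

open Finset

namespace Pool.Agent.H77CS

/-- number of `y'` with window `(y,y']` of sum near `T` -/
noncomputable def cw (T W y : ℕ) (A : Finset ℕ) : ℝ :=
  if y ∈ A then
    ((A.filter (fun y' => y < y' ∧ T < S A y y' + W ∧ S A y y' < T + W)).card : ℝ)
  else 0

theorem winSet_eq_sum {A J : Finset ℕ} (hA : A ⊆ J) (T W : ℕ) :
    ((winSet A T W).card : ℝ) = ∑ y ∈ J, cw T W y A := by
  unfold winSet
  rw [Finset.card_sigma]
  push_cast
  unfold cw
  rw [← Finset.sum_filter]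
  apply Finset.sum_congr _ (fun _ _ => rfl)
  ext y
  simp only [mem_filter]
  exact ⟨fun h => ⟨hA h, h⟩, fun h => h.2⟩

theorem sum_union_part {A' B : Finset ℕ} {y l : ℕ} (hA' : ∀ u ∈ A', u ≤ y ∨ y + l < u)
    (hB : B ⊆ Ioc y (y + l)) {y' : ℕ} (hy' : y + l < y') :
    S (A' ∪ B) y y' = (∑ u ∈ B, u) + S A' (y + l) y' := by
  rw [S_add (z := y + l) (by omega) hy'.le]
  congr 1
  · unfold S
    congr 1
    ext u
    simp only [mem_filter, mem_union]
    constructor
    · rintro ⟨h | h, h1, h2⟩
      · rcases hA' u h with h3 | h3 <;> omega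
      · exact h
    · intro h
      have := mem_Ioc.mp (hB h)
      exact ⟨Or.inr h, this⟩
  · unfold S
    congr 1
    ext u
    simp only [mem_filter, mem_union]
    constructor
    · rintro ⟨h | h, h1, h2⟩
      · exact ⟨h, h1, h2⟩
      · have := mem_Ioc.mp (hB h)
        omega
    · rintro ⟨h, h1, h2⟩
      exact ⟨Or.inl h, h1, h2⟩

theorem window_sum_le (W T s q : ℕ) (hW : 0 < W) :
    ∑ t ∈ range W, (if s + t + q = T then (1 : ℝ) else 0) ≤
      ∑ t ∈ range W, (1 / (W : ℝ)) *
        (if T < s + t + q + W ∧ s + t + q < T + W then (1 : ℝ) else 0) := by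
  have hWr : (0 : ℝ) < W := by exact_mod_cast hW
  by_cases h : ∃ t0 < W, s + t0 + q = T
  · obtain ⟨t0, ht0, hT⟩ := h
    have h1 : ∑ t ∈ range W, (if s + t + q = T then (1 : ℝ) else 0) = 1 := by
      rw [Finset.sum_eq_single t0]
      · simp [hT]
      · intro t _ ht
        rw [if_neg]
        omega
      · intro h
        exact absurd (mem_range.mpr ht0) h
    have h2 : ∑ t ∈ range W, (1 / (W : ℝ)) *
        (if T < s + t + q + W ∧ s + t + q < T + W then (1 : ℝ) else 0) = 1 := by
      rw [Finset.sum_congr rfl (g := fun _ => 1 / (W : ℝ))]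
      · simp; field_simp
      · intro t ht
        have := mem_range.mp ht
        rw [if_pos (by omega), mul_one]
    rw [h1, h2]
  · push Not at h
    rw [Finset.sum_eq_zero]
    · apply Finset.sum_nonneg
      intro t _
      split_ifs <;> positivity
    · intro t ht
      rw [if_neg (h t (mem_range.mp ht))]

theorem cw_exp {p : ℝ} (hp0 : 0 ≤ p) (hp1 : p ≤ 1) {n α β T Λ y : ℕ} (hΛ : 9 ≤ Λ)
    (hβ : α + β ≤ n) (hWT : n * 2 ^ Λ ≤ T) (hy : y ∈ Ioc α (α + β)) :
    Ex p (Ioc α (α + β)) (cw T 1 y) ≤
      (1 / (2 ^ Λ : ℕ)) * Ex p (Ioc α (α + β)) (cw T (2 ^ Λ) y) + err p 3 Λ := by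
  set W := 2 ^ Λ with hW
  have hW0 : 0 < W := by positivity
  have hWr : (0 : ℝ) < W := by exact_mod_cast hW0
  set l := 2 ^ (Λ - 1) with hl
  have hWl : W = 2 * l := by
    rw [hW, hl, ← pow_succ']; congr 1; omega
  have hl0 : 0 < l := by positivity
  have hy1 := (mem_Ioc.mp hy).1
  have hy2 := (mem_Ioc.mp hy).2
  have herr := err_nonneg hp0 hp1 3 Λ
  have hn : 0 < n := by omega
  -- a window with sum T is long
  have hlong : ∀ A ⊆ Ioc α (α + β), ∀ y' ∈ A, y < y' → S A y y' = T → y + l < y' := by
    intro A hA y' hy' hlt hS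
    have e1 := S_le A y y'
    have e2 := ct_le A y y'
    have e3 := (mem_Ioc.mp (hA hy')).2
    by_contra hcon
    push Not at hcon
    have e4 : ct A y y' * y' ≤ l * n := Nat.mul_le_mul (by omega) (by omega)
    have e5 : n * W = l * n + l * n := by rw [hWl]; ring
    have : 0 < l * n := by positivity
    omega
  rcases le_or_gt (y + l) (α + β) with hcase | hcase
  · set Rst := Ioc α y ∪ Ioc (y + l) (α + β) with hRst
    set Reg := Ioc y (y + l) with hReg
    have hJ : Ioc α (α + β) = Rst ∪ Reg := by
      ext u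
      simp only [hRst, hReg, mem_union, mem_Ioc]
      omega
    have hdis : Disjoint Rst Reg := by
      rw [Finset.disjoint_left]
      intro u h1 h2
      simp only [hRst, hReg, mem_union, mem_Ioc] at h1 h2
      omega
    have hU := unif_main hp0 hp1 y 3 Λ l (by omega) (by
      rw [hl]; apply Nat.pow_le_pow_right (by norm_num); omega)
    rw [hJ, Ex_union p hdis, Ex_union p hdis, ← Ex_mul]
    rw [← Ex_const p Rst (err p 3 Λ), ← Ex_add]
    apply Ex_mono hp0 hp1
    intro A' hA'
    have hA'' : ∀ u ∈ A', u ≤ y ∨ y + l < u := by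
      intro u hu
      have := hA' hu
      simp only [hRst, mem_union, mem_Ioc] at this
      omega
    by_cases hyA : y ∈ A'
    · set Q := A'.filter (fun u => y + l < u) with hQ
      set q : ℕ → ℕ := fun y' => S A' (y + l) y' with hq
      set g : ℕ → ℝ := fun s => ∑ y' ∈ Q, (if s + q y' = T then (1 : ℝ) else 0) with hg
      set G : ℕ → ℝ := fun s => ∑ y' ∈ Q, (1 / (W : ℝ)) *
        (if T < s + q y' + W ∧ s + q y' < T + W then (1 : ℝ) else 0) with hG
      have h0 : ∀ s, 0 ≤ g s := fun s => Finset.sum_nonneg fun _ _ => by split_ifs <;> norm_num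
      have h2 : ∀ s, 0 ≤ G s := fun s => Finset.sum_nonneg fun _ _ => by
        split_ifs <;> positivity
      have h1 : ∀ s, g s ≤ 1 := by
        intro s
        simp only [hg]
        rw [Finset.sum_boole]
        have : (Q.filter (fun y' => s + q y' = T)).card ≤ 1 := by
          rw [Finset.card_le_one]
          intro a ha b hb
          simp only [hQ, mem_filter] at ha hb
          have key : ∀ a b, b ∈ A' → y + l < a → a < b → q a < q b := by
            intro a b hb h1 h2
            simp only [hq]
            rw [S_add (z := a) h1.le h2.le]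
            have := S_pos h2 hb
            omega
          rcases lt_trichotomy a b with h | h | h
          · have := key a b hb.1.1 ha.1.2 h; omega
          · exact h
          · have := key b a ha.1.1 hb.1.2 h; omega
        exact_mod_cast this
      have h3 : ∀ s, ∑ t ∈ range W, g (s + t) ≤ ∑ t ∈ range W, G (s + t) := by
        intro s
        simp only [hg, hG]
        rw [Finset.sum_comm, Finset.sum_comm (s := range W) (t := Q)]
        apply Finset.sum_le_sum
        intro y' _
        exact window_sum_le W T s (q y') hW0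
      have h4 := hU g G h0 h1 h2 h3
      refine le_trans ?_ (h4.trans ?_)
      · apply Ex_mono hp0 hp1
        intro B hB
        unfold cw
        rw [if_pos (mem_union_left _ hyA)]
        simp only [hg]
        rw [Finset.sum_boole]
        have : ((A' ∪ B).filter (fun y' => y < y' ∧ T < S (A' ∪ B) y y' + 1 ∧
            S (A' ∪ B) y y' < T + 1)) ⊆ Q.filter (fun y' => (∑ u ∈ B, u) + q y' = T) := by
          intro y' hy'
          simp only [mem_filter] at hy'
          obtain ⟨m1, m2, m3, m4⟩ := hy'
          have hAB : A' ∪ B ⊆ Ioc α (α + β) := by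
            rw [hJ]; exact Finset.union_subset_union hA' hB
          have hST : S (A' ∪ B) y y' = T := by omega
          have hlg := hlong _ hAB y' m1 m2 hST
          have hyB : y' ∉ B := by
            intro h
            have := mem_Ioc.mp (hB h)
            omega
          have hyA' : y' ∈ A' := by
            rcases mem_union.mp m1 with h | h
            · exact h
            · exact absurd h hyB
          simp only [hQ, mem_filter]
          refine ⟨⟨hyA', hlg⟩, ?_⟩
          rw [← hST, sum_union_part hA'' hB hlg]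
        exact_mod_cast Finset.card_le_card this
      · gcongr
        rw [← Ex_mul]
        apply Ex_mono hp0 hp1
        intro B hB
        unfold cw
        rw [if_pos (mem_union_left _ hyA)]
        simp only [hG]
        rw [← Finset.mul_sum, Finset.sum_boole]
        apply mul_le_mul_of_nonneg_left _ (by positivity)
        have : Q.filter (fun y' => T < (∑ u ∈ B, u) + q y' + W ∧ (∑ u ∈ B, u) + q y' < T + W) ⊆
          ((A' ∪ B).filter (fun y' => y < y' ∧ T < S (A' ∪ B) y y' + W ∧
            S (A' ∪ B) y y' < T + W)) := by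
          intro y' hy'
          simp only [hQ, mem_filter] at hy' ⊢
          obtain ⟨⟨m1, m2⟩, m3, m4⟩ := hy'
          rw [sum_union_part hA'' hB m2]
          exact ⟨mem_union_left _ m1, by omega, m3, m4⟩
        exact_mod_cast Finset.card_le_card this
    · have hz : ∀ W', ∀ B ⊆ Reg, cw T W' y (A' ∪ B) = 0 := by
        intro W' B hB
        unfold cw
        rw [if_neg]
        intro h
        rcases mem_union.mp h with h | h
        · exact hyA h
        · have := mem_Ioc.mp (hB h)
          omega
      rw [Ex_congr (hz 1), Ex_congr (hz W), Ex_const]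
      simpa using herr
  · -- no room at all
    have h1 : Ex p (Ioc α (α + β)) (cw T 1 y) ≤ 0 := by
      apply Ex_le_const hp0 hp1
      intro A hA
      unfold cw
      split_ifs with h
      · have : (A.filter (fun y' => y < y' ∧ T < S A y y' + 1 ∧ S A y y' < T + 1)) = ∅ := by
          rw [Finset.eq_empty_iff_forall_notMem]
          intro y' hy'
          simp only [mem_filter] at hy'
          obtain ⟨m1, m2, m3, m4⟩ := hy'
          have hlg := hlong _ hA y' m1 m2 (by omega)
          have := (mem_Ioc.mp (hA m1)).2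
          omega
        rw [this]; simp
      · exact le_refl _
    have h2 : 0 ≤ Ex p (Ioc α (α + β)) (cw T W y) := by
      apply Ex_nonneg hp0 hp1
      intro A _
      unfold cw
      split_ifs
      · positivity
      · exact le_refl _
    have : 0 ≤ (1 / (W : ℝ)) * Ex p (Ioc α (α + β)) (cw T W y) := by positivity
    linarith

theorem winEq_exp {p : ℝ} (hp0 : 0 ≤ p) (hp1 : p ≤ 1) {n α β T Λ : ℕ} (hΛ : 9 ≤ Λ)
    (hn : 0 < n) (hα : n ≤ 2 * α) (hβ : α + β ≤ n) (hWT : n * 2 ^ Λ ≤ T) (hWn : 2 ^ Λ ≤ n) :
    Ex p (Ioc α (α + β)) (fun A => ((winSet A T 1).card : ℝ)) ≤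
      (1 / (2 ^ Λ : ℕ)) * (2 + 8 * T * β / n ^ 2 + 8 * (2 ^ Λ : ℕ) / n) + β * err p 3 Λ := by
  set W := 2 ^ Λ with hW
  have hW0 : 0 < W := by positivity
  have hWr : (0 : ℝ) < W := by exact_mod_cast hW0
  have e1 : Ex p (Ioc α (α + β)) (fun A => ((winSet A T 1).card : ℝ)) =
      ∑ y ∈ Ioc α (α + β), Ex p (Ioc α (α + β)) (cw T 1 y) := by
    rw [← Ex_sum]
    apply Ex_congr
    intro A hA
    exact winSet_eq_sum hA T 1
  have e2 : Ex p (Ioc α (α + β)) (fun A => ((winSet A T W).card : ℝ)) =
      ∑ y ∈ Ioc α (α + β), Ex p (Ioc α (α + β)) (cw T W y) := by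
    rw [← Ex_sum]
    apply Ex_congr
    intro A hA
    exact winSet_eq_sum hA T W
  have e3 : Ex p (Ioc α (α + β)) (fun A => ((winSet A T W).card : ℝ)) ≤
      2 + 8 * T * β / n ^ 2 + 8 * W / n :=
    Ex_le_const hp0 hp1 fun A hA => winSet_card hA hn hα hβ hW0 hWn (Or.inr hWT)
  rw [e1]
  calc ∑ y ∈ Ioc α (α + β), Ex p (Ioc α (α + β)) (cw T 1 y)
      ≤ ∑ y ∈ Ioc α (α + β),
          ((1 / (W : ℝ)) * Ex p (Ioc α (α + β)) (cw T W y) + err p 3 Λ) :=
        Finset.sum_le_sum fun y hy => cw_exp hp0 hp1 hΛ hβ hWT hy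
    _ = (1 / (W : ℝ)) * Ex p (Ioc α (α + β)) (fun A => ((winSet A T W).card : ℝ)) +
          β * err p 3 Λ := by
        rw [e2, Finset.sum_add_distrib, Finset.mul_sum]
        simp
    _ ≤ _ := by gcongr

end Pool.Agent.H77CS
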