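import Mathlib
import Pool.Agent.H77CS.Hit

open Finset

namespace Pool.Agent.H77CS

/-- collisions: `x < x'` in `F` and `y < y'` in `A` whose windows have the same sum -/
def collset (F A : Finset ℕ) : Finset (Σ _ : ℕ, Σ _ : ℕ, Σ _ : ℕ, ℕ) :=
  F.sigma fun x => (F.filter (fun x' => x < x')).sigma fun x' => winSet A (S F x x') 1

theorem collset_card (F A : Finset ℕ) :
    ((collset F A).card : ℝ) =
      ∑ x ∈ F, ∑ x' ∈ F.filter (fun x' => x < x'), ((winSet A (S F x x') 1).card : ℝ) := by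
  unfold collset
  rw [Finset.card_sigma]
  push_cast
  apply Finset.sum_congr rfl
  intro x _
  rw [Finset.card_sigma]
  push_cast
  rfl

theorem few_small (F : Finset ℕ) (x s : ℕ) :
    ((F.filter (fun x' => x < x')).filter (fun x' => ct F x x' < s)).card ≤ s := by
  have h1 : Set.MapsTo (fun x' => ct F x x')
      (((F.filter (fun x' => x < x')).filter (fun x' => ct F x x' < s) : Finset ℕ) : Set ℕ)
      ((range s : Finset ℕ) : Set ℕ) := by
    intro x' hx'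
    simp only [coe_filter, mem_filter, Set.mem_ofPred_eq] at hx'
    simp only [coe_range, Set.mem_Iio]
    exact hx'.2
  have h2 : Set.InjOn (fun x' => ct F x x')
      (((F.filter (fun x' => x < x')).filter (fun x' => ct F x x' < s) : Finset ℕ) : Set ℕ) := by
    intro a ha b hb hab
    simp only [coe_filter, mem_filter, Set.mem_ofPred_eq] at ha hb
    simp only at hab
    rcases lt_trichotomy a b with h | h | h
    · have e1 := ct_add (A := F) ha.1.2.le h.le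
      have e2 := ct_pos h hb.1.1
      omega
    · exact h
    · have e1 := ct_add (A := F) hb.1.2.le h.le
      have e2 := ct_pos h ha.1.1
      omega
  have := Finset.card_le_card_of_injOn _ h1 h2
  simpa using this

theorem err_eventually {p : ℝ} (hp0 : 0 < p) (hp1 : p < 1) (κ : ℕ) :
    ∃ Λ1 : ℕ, ∀ Λ ≥ Λ1, err p κ Λ ≤ 1 / (2 : ℝ) ^ (8 * Λ) := by
  have h := err_tendsto hp0 hp1 κ
  have h2 := (h.eventually (gt_mem_nhds (show (0 : ℝ) < 1 by norm_num)))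
  obtain ⟨Λ1, hΛ1⟩ := Filter.eventually_atTop.mp h2
  refine ⟨Λ1, fun Λ hΛ => ?_⟩
  have h3 := hΛ1 Λ hΛ
  rw [le_div_iff₀ (by positivity)]
  linarith

theorem pair_bound {p : ℝ} (hp0 : 0 < p) (hp1 : p < 1) {c0 : ℝ} (hc0 : 0 < c0) {Λ1 : ℕ}
    (hΛ1 : ∀ Λ ≥ Λ1, err p 3 Λ ≤ 1 / (2 : ℝ) ^ (8 * Λ))
    {n m α β s : ℕ} {F : Finset ℕ} (hn : 0 < n) (hm : c0 * n ≤ m) (hmn : 2 * m ≤ n)
    (hα : n ≤ 2 * α) (hβ : α + β ≤ n) (hF : F ⊆ Ioc m (2 * m))
    {t : ℕ} (ht : (t : ℝ) ≤ c0 * s) (ht1 : 2 ^ (Λ1 + 10) ≤ t)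
    {x x' : ℕ} (hx : x ∈ F) (hx' : x' ∈ F) (hxx : x < x') :
    Ex p (Ioc α (α + β)) (fun A => ((winSet A (S F x x') 1).card : ℝ)) ≤
      (if ct F x x' < s then 10 + 4 * (s : ℝ) else 0) +
        (16 * β / n + (4 / t + 8 / n + 256 * n / t ^ 8)) := by
  have hnr : (0 : ℝ) < n := by exact_mod_cast hn
  have hmr : (2 : ℝ) * m ≤ n := by exact_mod_cast hmn
  have hβn : 2 * β ≤ n := by omega
  have hβr : (2 : ℝ) * β ≤ n := by exact_mod_cast hβn
  have ht0 : 0 < t := lt_of_lt_of_le (by positivity) ht1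
  have htr : (0 : ℝ) < t := by exact_mod_cast ht0
  have hx1 := mem_Ioc.mp (hF hx)
  have hx1' := mem_Ioc.mp (hF hx')
  set T := S F x x' with hT
  have hTle : T ≤ ct F x x' * (2 * m) :=
    (S_le F x x').trans (Nat.mul_le_mul_left _ hx1'.2)
  have hTge : ct F x x' * m ≤ T :=
    le_trans (Nat.mul_le_mul_left _ (by omega)) (S_ge F x x')
  have hctm : ct F x x' ≤ m := (ct_le F x x').trans (by omega)
  have hrest : (0 : ℝ) ≤ 16 * β / n + (4 / t + 8 / n + 256 * n / t ^ 8) := by positivity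
  split_ifs with hs
  · -- small
    have h1 : Ex p (Ioc α (α + β)) (fun A => ((winSet A T 1).card : ℝ)) ≤
        2 + 8 * T * β / n ^ 2 + 8 * (1 : ℕ) / n :=
      Ex_le_const hp0.le hp1.le fun A hA =>
        winSet_card hA hn hα hβ one_pos hn (Or.inl rfl)
    have h2 : (T : ℝ) ≤ s * (2 * m) := by
      have : T ≤ s * (2 * m) := hTle.trans (Nat.mul_le_mul_right _ hs.le)
      exact_mod_cast this
    have h3 : 8 * (T : ℝ) * β / n ^ 2 ≤ 4 * s := by
      rw [div_le_iff₀ (by positivity)]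
      have h4 : (T : ℝ) ≤ s * n := by nlinarith [(Nat.cast_nonneg s : (0:ℝ) ≤ s)]
      have h5 : (T : ℝ) * (2 * β) ≤ (s * n) * n := by
        apply mul_le_mul h4 hβr (by positivity) (by positivity)
      nlinarith
    have h6 : 8 * ((1 : ℕ) : ℝ) / n ≤ 8 := by
      rw [div_le_iff₀ hnr]
      have : (1 : ℝ) ≤ n := by exact_mod_cast hn
      push_cast; linarith
    linarith
  · -- large
    push Not at hs
    have h1 : (t : ℝ) * n ≤ T := by
      have h2 : (s : ℝ) * m ≤ T := by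
        have : s * m ≤ T := (Nat.mul_le_mul_right _ hs).trans hTge
        exact_mod_cast this
      have h3 : (0 : ℝ) ≤ s := by positivity
      calc (t : ℝ) * n ≤ c0 * s * n := by gcongr
        _ = s * (c0 * n) := by ring
        _ ≤ s * m := by gcongr
        _ ≤ T := h2
    have h1' : t * n ≤ T := by exact_mod_cast h1
    have htT : t ≤ T / n := (Nat.le_div_iff_mul_le hn).mpr h1'
    set Λ := Nat.log 2 (T / n) with hΛ
    have hTn0 : T / n ≠ 0 := by omega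
    have hW1 : 2 ^ Λ ≤ T / n := Nat.pow_log_le_self 2 hTn0
    have hW2 : T / n < 2 ^ (Λ + 1) := Nat.lt_pow_succ_log_self (by norm_num) _
    have hΛge : Λ1 + 10 ≤ Λ := by
      by_contra hcon
      push Not at hcon
      have : 2 ^ (Λ + 1) ≤ 2 ^ (Λ1 + 10) := Nat.pow_le_pow_right (by norm_num) (by omega)
      omega
    have hWT : n * 2 ^ Λ ≤ T := by
      have := (Nat.le_div_iff_mul_le hn).mp hW1
      rw [mul_comm]; exact this
    have hTn2 : T ≤ n * n := by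
      calc T ≤ ct F x x' * (2 * m) := hTle
        _ ≤ m * (2 * m) := Nat.mul_le_mul_right _ hctm
        _ ≤ n * n := Nat.mul_le_mul (by omega) hmn
    have hWn : 2 ^ Λ ≤ n := by
      have := Nat.div_le_of_le_mul hTn2
      omega
    have h2 := winEq_exp hp0.le hp1.le (by omega) hn hα hβ hWT hWn
    refine h2.trans ?_
    set W := 2 ^ Λ with hW
    have hW0 : 0 < W := by positivity
    have hWr : (0 : ℝ) < W := by exact_mod_cast hW0
    have htW : (t : ℝ) ≤ 2 * W := by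
      have : t ≤ 2 * W := by
        have h3 : 2 ^ (Λ + 1) = 2 * W := by rw [pow_succ, mul_comm]
        omega
      exact_mod_cast this
    have hTW : (T : ℝ) ≤ 2 * n * W := by
      have h3 : T < 2 * W * n := by
        have h4 : 2 ^ (Λ + 1) = 2 * W := by rw [pow_succ, mul_comm]
        rw [h4] at hW2
        exact (Nat.div_lt_iff_lt_mul hn).mp hW2
      have : (T : ℝ) < 2 * W * n := by exact_mod_cast h3
      linarith
    have e1 : (1 / (W : ℝ)) * (2 + 8 * T * β / n ^ 2 + 8 * W / n) =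
        2 / W + 8 * T * β / (n ^ 2 * W) + 8 / n := by
      field_simp
    have e2 : 2 / (W : ℝ) ≤ 4 / t := by
      rw [div_le_div_iff₀ hWr htr]; linarith
    have e3 : 8 * (T : ℝ) * β / (n ^ 2 * W) ≤ 16 * β / n := by
      rw [div_le_div_iff₀ (by positivity) hnr]
      have hb : (0 : ℝ) ≤ β := by positivity
      nlinarith [mul_le_mul_of_nonneg_right hTW (mul_nonneg hb hnr.le)]
    have e4 : (β : ℝ) * err p 3 Λ ≤ 256 * n / t ^ 8 := by
      have h3 := hΛ1 Λ (by omega)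
      have h4 : (2 : ℝ) ^ (8 * Λ) = (W : ℝ) ^ 8 := by
        rw [hW]; push_cast; rw [← pow_mul]; congr 1; ring
      rw [h4] at h3
      have h5 : (t : ℝ) ^ 8 ≤ 256 * (W : ℝ) ^ 8 := by
        calc (t : ℝ) ^ 8 ≤ (2 * W) ^ 8 := by gcongr
          _ = 256 * (W : ℝ) ^ 8 := by ring
      calc (β : ℝ) * err p 3 Λ ≤ n * (1 / (W : ℝ) ^ 8) := by
            apply mul_le_mul _ h3 (err_nonneg hp0.le hp1.le _ _) hnr.le
            linarith [(Nat.cast_nonneg β : (0:ℝ) ≤ β)]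
        _ ≤ 256 * n / t ^ 8 := by
            rw [mul_one_div, div_le_div_iff₀ (by positivity) (by positivity)]
            nlinarith
    rw [e1]
    linarith

theorem coll_exp {p : ℝ} (hp0 : 0 < p) (hp1 : p < 1) {c0 : ℝ} (hc0 : 0 < c0) {η : ℝ}
    (hη : 0 < η) : ∃ n0 : ℕ, ∀ n ≥ n0, ∀ (m α β : ℕ) (F : Finset ℕ), c0 * n ≤ m → 2 * m ≤ n →
      n ≤ 2 * α → α + β ≤ n → F ⊆ Ioc m (2 * m) →
      Ex p (Ioc α (α + β)) (fun A => ((collset F A).card : ℝ)) ≤
        16 * m ^ 2 * β / n + η * n ^ 2 := by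
  obtain ⟨Λ1, hΛ1⟩ := err_eventually hp0 hp1 3
  set C : ℝ := 15 + 8 / c0 + 2 ^ 20 / c0 ^ 8 with hC
  obtain ⟨s1, hs1⟩ := exists_nat_ge (C / η)
  obtain ⟨s2, hs2⟩ := exists_nat_ge (2 * (2 ^ (Λ1 + 10) + 1) / c0)
  set s0 := s1 + s2 + 1 with hs0
  refine ⟨(s0 * s0) * (s0 * s0), ?_⟩
  intro n hn m α β F hm hmn hα hβ hF
  set s := Nat.sqrt (Nat.sqrt n) with hs
  have hss : s0 ≤ s := by
    rw [hs, Nat.le_sqrt, Nat.le_sqrt]; exact hn
  have hs4 : s ^ 4 ≤ n := by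
    have h1 := Nat.sqrt_le' n
    have h2 := Nat.sqrt_le' (Nat.sqrt n)
    calc s ^ 4 = (s ^ 2) ^ 2 := by ring
      _ ≤ (Nat.sqrt n) ^ 2 := Nat.pow_le_pow_left h2 2
      _ ≤ n := h1
  have hs4' : n < (s + 1) ^ 4 := by
    have h1 := Nat.lt_succ_sqrt' n
    have h2 := Nat.lt_succ_sqrt' (Nat.sqrt n)
    calc n < (Nat.sqrt n + 1) ^ 2 := h1
      _ ≤ ((s + 1) ^ 2) ^ 2 := Nat.pow_le_pow_left h2 2
      _ = (s + 1) ^ 4 := by ring
  have hspos : 1 ≤ s := by omega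
  have hsr : (1 : ℝ) ≤ s := by exact_mod_cast hspos
  have hn0 : 0 < n := by
    have : 0 < s ^ 4 := by positivity
    omega
  have hnr : (0 : ℝ) < n := by exact_mod_cast hn0
  set t := ⌊c0 * s⌋₊ with htdef
  have ht : (t : ℝ) ≤ c0 * s := Nat.floor_le (by positivity)
  have hs2' : (2 * (2 ^ (Λ1 + 10) + 1) : ℝ) ≤ c0 * s := by
    have h1 : (s2 : ℝ) ≤ s := by exact_mod_cast (by omega : s2 ≤ s)
    have h2 := (div_le_iff₀ hc0).mp (hs2.trans h1)
    linarith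
  have htge : c0 * s / 2 ≤ t := by
    have h1 : c0 * s - 1 < t := Nat.sub_one_lt_floor _
    have h2 : (0 : ℝ) ≤ 2 ^ (Λ1 + 10) := by positivity
    linarith
  have ht1 : 2 ^ (Λ1 + 10) ≤ t := by
    have : ((2 ^ (Λ1 + 10) : ℕ) : ℝ) ≤ t := by
      push_cast
      linarith
    exact_mod_cast this
  have htr : (0 : ℝ) < t := by
    have : 0 < c0 * s / 2 := by positivity
    linarith
  have hFcard : F.card ≤ m := by
    calc F.card ≤ (Ioc m (2 * m)).card := Finset.card_le_card hF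
      _ = m := by simp; omega
  have hFr : (F.card : ℝ) ≤ m := by exact_mod_cast hFcard
  have hmr : (2 : ℝ) * m ≤ n := by exact_mod_cast hmn
  set bl : ℝ := 16 * β / n + (4 / t + 8 / n + 256 * n / t ^ 8) with hbl
  have hbl0 : 0 ≤ bl := by positivity
  have h1 : Ex p (Ioc α (α + β)) (fun A => ((collset F A).card : ℝ)) ≤
      ∑ x ∈ F, ∑ x' ∈ F.filter (fun x' => x < x'),
        ((if ct F x x' < s then 10 + 4 * (s : ℝ) else 0) + bl) := by
    simp_rw [collset_card]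
    rw [Ex_sum]
    apply Finset.sum_le_sum
    intro x hx
    rw [Ex_sum]
    apply Finset.sum_le_sum
    intro x' hx'
    have hx'' := mem_filter.mp hx'
    exact pair_bound hp0 hp1 hc0 hΛ1 hn0 hm hmn hα hβ hF ht ht1 hx hx''.1 hx''.2
  have h2 : ∀ x ∈ F, ∑ x' ∈ F.filter (fun x' => x < x'),
        ((if ct F x x' < s then 10 + 4 * (s : ℝ) else 0) + bl) ≤
        s * (10 + 4 * s) + m * bl := by
    intro x _
    rw [Finset.sum_add_distrib, ← Finset.sum_filter, Finset.sum_const, Finset.sum_const,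
      nsmul_eq_mul, nsmul_eq_mul]
    have h3 : (((F.filter (fun x' => x < x')).filter (fun x' => ct F x x' < s)).card : ℝ) ≤ s := by
      exact_mod_cast few_small F x s
    have h4 : ((F.filter (fun x' => x < x')).card : ℝ) ≤ m := by
      have : (F.filter (fun x' => x < x')).card ≤ F.card := Finset.card_filter_le _ _
      exact_mod_cast this.trans hFcard
    gcongr
  have h3 : Ex p (Ioc α (α + β)) (fun A => ((collset F A).card : ℝ)) ≤
      m * (s * (10 + 4 * s) + m * bl) := by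
    calc _ ≤ ∑ x ∈ F, (s * (10 + 4 * (s : ℝ)) + m * bl) := h1.trans (Finset.sum_le_sum h2)
      _ = F.card * (s * (10 + 4 * s) + m * bl) := by rw [Finset.sum_const, nsmul_eq_mul]
      _ ≤ _ := by gcongr
  refine h3.trans ?_
  -- now asymptotics
  have hs4r : (s : ℝ) ^ 4 ≤ n := by exact_mod_cast hs4
  have hs4r' : (n : ℝ) ≤ 16 * (s : ℝ) ^ 4 := by
    have : (n : ℝ) < ((s : ℝ) + 1) ^ 4 := by exact_mod_cast hs4'
    calc (n : ℝ) ≤ ((s : ℝ) + 1) ^ 4 := this.le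
      _ ≤ (2 * s) ^ 4 := by gcongr; linarith
      _ = 16 * (s : ℝ) ^ 4 := by ring
  have hsn : (s : ℝ) ≤ n := by
    have h4 : (s : ℝ) ^ 1 ≤ (s : ℝ) ^ 4 := pow_le_pow_right₀ hsr (by norm_num)
    rw [pow_one] at h4; linarith
  have a1 : (m : ℝ) * (s * (10 + 4 * s)) ≤ 7 * n ^ 2 / s := by
    rw [le_div_iff₀ (by positivity)]
    have h5 : (s : ℝ) * (10 + 4 * s) ≤ 14 * s ^ 2 := by nlinarith
    have h6 : (s : ℝ) ^ 3 ≤ n := by
      have : (s : ℝ) ^ 3 ≤ (s : ℝ) ^ 4 := pow_le_pow_right₀ hsr (by norm_num)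
      linarith
    have h7 : (m : ℝ) * (s * (10 + 4 * s)) * s ≤ m * (14 * s ^ 2) * s := by gcongr
    have h8 : (m : ℝ) * (14 * s ^ 2) * s = 7 * (2 * m) * s ^ 3 := by ring
    have h9 : 7 * (2 * (m : ℝ)) * s ^ 3 ≤ 7 * n * n := by gcongr
    nlinarith
  have a2 : 4 / (t : ℝ) ≤ (8 / c0) / s := by
    rw [div_div, div_le_div_iff₀ htr (by positivity)]
    linarith
  have a3 : 8 / (n : ℝ) ≤ 8 / s := by
    apply div_le_div_of_nonneg_left (by norm_num) (by positivity) hsn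
  have a4 : 256 * (n : ℝ) / t ^ 8 ≤ (2 ^ 20 / c0 ^ 8) / s := by
    have h5 : (c0 * s / 2) ^ 8 ≤ (t : ℝ) ^ 8 := by gcongr
    have h6 : (c0 * s / 2) ^ 8 = c0 ^ 8 * s ^ 8 / 256 := by ring
    rw [h6] at h5
    rw [div_div, div_le_div_iff₀ (by positivity) (by positivity)]
    have h7 : (s : ℝ) ^ 4 * (s : ℝ) ≤ (s : ℝ) ^ 8 := by
      calc (s : ℝ) ^ 4 * (s : ℝ) = (s : ℝ) ^ 5 := by ring
        _ ≤ (s : ℝ) ^ 8 := pow_le_pow_right₀ hsr (by norm_num)
    have h8 : 256 * (n : ℝ) * (c0 ^ 8 * s) ≤ 256 * (16 * (s : ℝ) ^ 4) * (c0 ^ 8 * s) := by gcongr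
    have h9 : 256 * (16 * (s : ℝ) ^ 4) * (c0 ^ 8 * s) = 2 ^ 12 * c0 ^ 8 * (s ^ 4 * s) := by ring
    have h10 : 2 ^ 12 * c0 ^ 8 * ((s : ℝ) ^ 4 * s) ≤ 2 ^ 12 * c0 ^ 8 * s ^ 8 := by gcongr
    have h11 : 2 ^ 12 * c0 ^ 8 * (s : ℝ) ^ 8 = 2 ^ 20 * (c0 ^ 8 * s ^ 8 / 256) := by ring
    have h12 : (2 : ℝ) ^ 20 * (c0 ^ 8 * s ^ 8 / 256) ≤ 2 ^ 20 * t ^ 8 := by gcongr
    linarith
  have a5 : C / s ≤ η := by
    rw [div_le_iff₀ (by positivity)]
    have h5 : (s1 : ℝ) ≤ s := by exact_mod_cast (by omega : s1 ≤ s)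
    have h6 := (div_le_iff₀ hη).mp (hs1.trans h5)
    linarith
  have a6 : (m : ℝ) * (m * bl) ≤ 16 * m ^ 2 * β / n +
      n ^ 2 * ((8 / c0) / s + 8 / s + (2 ^ 20 / c0 ^ 8) / s) := by
    have h5 : (m : ℝ) * (m * bl) = 16 * m ^ 2 * β / n +
        m ^ 2 * (4 / t + 8 / n + 256 * n / t ^ 8) := by
      rw [hbl]; ring
    rw [h5]
    have h6 : (m : ℝ) ^ 2 ≤ n ^ 2 := by
      have : (m : ℝ) ≤ n := by linarith [(Nat.cast_nonneg m : (0:ℝ) ≤ m)]
      gcongr
    have h7 : (m : ℝ) ^ 2 * (4 / t + 8 / n + 256 * n / t ^ 8) ≤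
        n ^ 2 * ((8 / c0) / s + 8 / s + (2 ^ 20 / c0 ^ 8) / s) := by
      apply mul_le_mul h6 (by linarith) (by positivity) (by positivity)
    linarith
  have a7 : 7 * (n : ℝ) ^ 2 / s + n ^ 2 * ((8 / c0) / s + 8 / s + (2 ^ 20 / c0 ^ 8) / s) =
      n ^ 2 * (C / s) := by
    rw [hC]; ring
  have a8 : (n : ℝ) ^ 2 * (C / s) ≤ n ^ 2 * η := by gcongr
  have a9 : (m : ℝ) * (s * (10 + 4 * s) + m * bl) =
      m * (s * (10 + 4 * s)) + m * (m * bl) := by ring
  rw [a9]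
  linarith

end Pool.Agent.H77CS
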