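import Mathlib
import Pool.Agent.H77CS.Coll

open Finset

namespace Pool.Agent.H77CS

/-- the start points: elements of `A` in `(m, 2m]` -/
def Fs (m : ℕ) (A : Finset ℕ) : Finset ℕ := A.filter (fun x => m < x ∧ x ≤ 2 * m)

theorem Fs_subset (m : ℕ) (A : Finset ℕ) : Fs m A ⊆ Ioc m (2 * m) := by
  intro x hx
  simp only [Fs, mem_filter] at hx
  exact mem_Ioc.mpr hx.2

theorem Fs_card_le (m : ℕ) (A : Finset ℕ) : (Fs m A).card ≤ m := by
  calc (Fs m A).card ≤ (Ioc m (2 * m)).card := Finset.card_le_card (Fs_subset m A)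
    _ = m := by simp; omega

theorem S_Fs {m : ℕ} {A : Finset ℕ} {x x' : ℕ} (hx : x ∈ Fs m A) (hx' : x' ∈ Fs m A) :
    S (Fs m A) x x' = S A x x' := by
  unfold S
  congr 1
  ext u
  simp only [Fs, mem_filter] at hx hx' ⊢
  constructor
  · rintro ⟨⟨h1, h2⟩, h3⟩
    exact ⟨h1, h3⟩
  · rintro ⟨h1, h2, h3⟩
    exact ⟨⟨h1, by omega, by omega⟩, h2, h3⟩

theorem S_split {A0 A1 A2 : Finset ℕ} {M β x y : ℕ} (hA0 : A0 ⊆ Ioc 0 M)
    (hA1 : A1 ⊆ Ioc M (M + β)) (hA2 : A2 ⊆ Ioc (M + β) (M + 2 * β)) (hx : x ≤ M)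
    (hy : M + β < y) :
    S (A0 ∪ (A1 ∪ A2)) x y = S A0 x M + (∑ u ∈ A1, u) + S A2 (M + β) y := by
  rw [S_add (z := M) hx (by omega), S_add (z := M + β) (y := M) (by omega) hy.le, ← add_assoc]
  congr 1
  · congr 1
    · unfold S
      congr 1
      ext u
      simp only [mem_filter, mem_union]
      constructor
      · rintro ⟨h | h | h, h1, h2⟩
        · exact ⟨h, h1, h2⟩
        · have := mem_Ioc.mp (hA1 h); omega
        · have := mem_Ioc.mp (hA2 h); omega
      · rintro ⟨h, h1, h2⟩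
        exact ⟨Or.inl h, h1, h2⟩
    · unfold S
      congr 1
      ext u
      simp only [mem_filter, mem_union]
      constructor
      · rintro ⟨h | h | h, h1, h2⟩
        · have := mem_Ioc.mp (hA0 h); omega
        · exact h
        · have := mem_Ioc.mp (hA2 h); omega
      · intro h
        exact ⟨Or.inr (Or.inl h), mem_Ioc.mp (hA1 h)⟩
  · unfold S
    congr 1
    ext u
    simp only [mem_filter, mem_union]
    constructor
    · rintro ⟨h | h | h, h1, h2⟩
      · have := mem_Ioc.mp (hA0 h); omega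
      · have := mem_Ioc.mp (hA1 h); omega
      · exact ⟨h, h1, h2⟩
    · rintro ⟨h, h1, h2⟩
      exact ⟨Or.inr (Or.inr h), h1, h2⟩

/-- counting distinct new sums produced by one block -/
theorem block_count {A0 A1 A2 U : Finset ℕ} {M β m : ℕ} (hA0 : A0 ⊆ Ioc 0 M)
    (hA1 : A1 ⊆ Ioc M (M + β)) (hA2 : A2 ⊆ Ioc (M + β) (M + 2 * β)) (hm : 2 * m ≤ M) :
    (Fs m A0).card * A2.card ≤
      (((Fs m A0 ×ˢ A2).image (fun q => S (A0 ∪ (A1 ∪ A2)) q.1 q.2)) \ U).card +
      (collset (Fs m A0) A2).card +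
      ((Fs m A0 ×ˢ A2).filter (fun q => S A0 q.1 M + (∑ u ∈ A1, u) + S A2 (M + β) q.2 ∈ U)).card := by
  classical
  set F := Fs m A0 with hF
  set φ : ℕ × ℕ → ℕ := fun q => S (A0 ∪ (A1 ∪ A2)) q.1 q.2 with hφ
  set P := F ×ˢ A2 with hP
  have hFm : ∀ x ∈ F, x ∈ A0 ∧ m < x ∧ x ≤ 2 * m := by
    intro x hx
    simpa only [hF, Fs, mem_filter] using hx
  have hφe : ∀ q ∈ P, φ q = S A0 q.1 M + (∑ u ∈ A1, u) + S A2 (M + β) q.2 := by
    intro q hq
    have h := mem_product.mp hq
    have h1 := hFm _ h.1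
    have h2 := mem_Ioc.mp (hA2 h.2)
    exact S_split hA0 hA1 hA2 (by omega) h2.1
  set P' := P.filter (fun q => ∃ q' ∈ P, q'.2 < q.2 ∧ φ q' = φ q) with hP'
  set PU := P.filter (fun q => S A0 q.1 M + (∑ u ∈ A1, u) + S A2 (M + β) q.2 ∈ U) with hPU
  have h1 : P'.card ≤ (collset F A2).card := by
    have hsub : P' ⊆ (collset F A2).image (fun z => (z.2.1, z.2.2.2)) := by
      intro q hq
      obtain ⟨hqP, q', hq'P, hlt, heq⟩ := mem_filter.mp hq
      have e1 := hφe q hqP
      have e2 := hφe q' hq'P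
      have m1 := mem_product.mp hqP
      have m2 := mem_product.mp hq'P
      have f1 := hFm _ m1.1
      have f2 := hFm _ m2.1
      have g1 := mem_Ioc.mp (hA2 m1.2)
      have g2 := mem_Ioc.mp (hA2 m2.2)
      have e3 := S_add (A := A2) (y := M + β) g2.1.le hlt.le
      have e4 := S_pos hlt m1.2
      have hxx : q'.1 < q.1 := by
        by_contra hcon
        push Not at hcon
        have := S_add (A := A0) hcon (show q'.1 ≤ M by omega)
        omega
      have e5 := S_add (A := A0) hxx.le (show q.1 ≤ M by omega)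
      have e6 : S F q'.1 q.1 = S A0 q'.1 q.1 := S_Fs m2.1 m1.1
      rw [mem_image]
      refine ⟨⟨q'.1, q.1, q'.2, q.2⟩, ?_, rfl⟩
      simp only [collset, winSet, mem_sigma, mem_filter]
      refine ⟨m2.1, ⟨m1.1, hxx⟩, m2.2, m1.2, hlt, ?_, ?_⟩ <;> omega
    exact (Finset.card_le_card hsub).trans Finset.card_image_le
  have h2 : (P \ (P' ∪ PU)).card ≤ ((P.image φ) \ U).card := by
    apply Finset.card_le_card_of_injOn φ
    · intro q hq
      simp only [coe_sdiff, Set.mem_sdiff, mem_coe, mem_union, not_or] at hq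
      simp only [coe_sdiff, Set.mem_sdiff, mem_coe]
      refine ⟨mem_image_of_mem _ hq.1, ?_⟩
      intro hU
      apply hq.2.2
      rw [hPU, mem_filter]
      exact ⟨hq.1, by rw [← hφe q hq.1]; exact hU⟩
    · intro q hq q' hq' heq
      simp only [coe_sdiff, Set.mem_sdiff, mem_coe, mem_union, not_or] at hq hq'
      have m1 := mem_product.mp hq.1
      have m2 := mem_product.mp hq'.1
      have f1 := hFm _ m1.1
      have f2 := hFm _ m2.1
      rcases lt_trichotomy q.2 q'.2 with h | h | h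
      · exfalso
        apply hq'.2.1
        rw [hP', mem_filter]
        exact ⟨hq'.1, q, hq.1, h, heq⟩
      · have e1 := hφe q hq.1
        have e2 := hφe q' hq'.1
        have e3 : S A0 q.1 M = S A0 q'.1 M := by
          rw [h] at e1
          omega
        have e4 : q.1 = q'.1 := by
          rcases lt_trichotomy q.1 q'.1 with h' | h' | h'
          · have := S_add (A := A0) h'.le (show q'.1 ≤ M by omega)
            have := S_pos h' f2.1
            omega
          · exact h'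
          · have := S_add (A := A0) h'.le (show q.1 ≤ M by omega)
            have := S_pos h' f1.1
            omega
        exact Prod.ext e4 h
      · exfalso
        apply hq.2.1
        rw [hP', mem_filter]
        exact ⟨hq.1, q', hq'.1, h, heq.symm⟩
  have h3 : P.card ≤ (P \ (P' ∪ PU)).card + P'.card + PU.card := by
    have e1 : P ⊆ (P \ (P' ∪ PU)) ∪ P' ∪ PU := by
      intro q hq
      simp only [mem_union, mem_sdiff]
      tauto
    calc P.card ≤ ((P \ (P' ∪ PU)) ∪ P' ∪ PU).card := Finset.card_le_card e1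
      _ ≤ ((P \ (P' ∪ PU)) ∪ P').card + PU.card := Finset.card_union_le _ _
      _ ≤ _ := by
        have := Finset.card_union_le (P \ (P' ∪ PU)) P'
        omega
  rw [hP, Finset.card_product] at h3
  rw [← hP] at h3
  omega

/-- overlap with an old set of low local density -/
theorem overlap_exp {p : ℝ} (hp0 : 0 ≤ p) (hp1 : p ≤ 1) {A0 A2 U : Finset ℕ} {M β m W : ℕ}
    {ε : ℝ} (hU : Unif p (Ioc M (M + β)) W ε) (hW : 0 < W) (hF : 0 < (Fs m A0).card)
    (hA2 : 0 < A2.card)
    (hdens : ∀ z, (((range W).filter (fun t => z + t ∈ U)).card : ℝ) ≤ W / 8) :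
    Ex p (Ioc M (M + β)) (fun A1 => (((Fs m A0 ×ˢ A2).filter
      (fun q => S A0 q.1 M + (∑ u ∈ A1, u) + S A2 (M + β) q.2 ∈ U)).card : ℝ)) ≤
      (1 / 8 + ε) * ((Fs m A0).card * A2.card) := by
  set F := Fs m A0 with hFdef
  set N : ℝ := (F.card : ℝ) * A2.card with hN
  have hNpos : 0 < N := by positivity
  have hWr : (0 : ℝ) < W := by exact_mod_cast hW
  have hPcard : ((F ×ˢ A2).card : ℝ) = N := by rw [Finset.card_product]; push_cast; rfl
  set g : ℕ → ℝ := fun s => (1 / N) * ∑ q ∈ F ×ˢ A2,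
    (if S A0 q.1 M + s + S A2 (M + β) q.2 ∈ U then (1 : ℝ) else 0) with hg
  have h0 : ∀ s, 0 ≤ g s := fun s => mul_nonneg (by positivity)
    (Finset.sum_nonneg fun _ _ => by split_ifs <;> norm_num)
  have h1 : ∀ s, g s ≤ 1 := by
    intro s
    simp only [hg]
    rw [one_div, inv_mul_le_iff₀ hNpos, mul_one, ← hPcard]
    calc ∑ q ∈ F ×ˢ A2, (if S A0 q.1 M + s + S A2 (M + β) q.2 ∈ U then (1 : ℝ) else 0)
        ≤ ∑ q ∈ F ×ˢ A2, (1 : ℝ) := Finset.sum_le_sum fun _ _ => by split_ifs <;> norm_num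
      _ = _ := by simp
  have h3 : ∀ s, ∑ t ∈ range W, g (s + t) ≤ ∑ t ∈ range W, (fun _ => (1 / 8 : ℝ)) (s + t) := by
    intro s
    simp only [hg]
    rw [← Finset.mul_sum, Finset.sum_comm, one_div, inv_mul_le_iff₀ hNpos]
    calc ∑ q ∈ F ×ˢ A2, ∑ t ∈ range W,
          (if S A0 q.1 M + (s + t) + S A2 (M + β) q.2 ∈ U then (1 : ℝ) else 0)
        ≤ ∑ q ∈ F ×ˢ A2, (W / 8 : ℝ) := by
          apply Finset.sum_le_sum
          intro q _
          rw [Finset.sum_boole]
          refine le_trans (le_of_eq ?_) (hdens (S A0 q.1 M + s + S A2 (M + β) q.2))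
          congr 2
          ext t
          rw [mem_filter, mem_filter]
          have : S A0 q.1 M + (s + t) + S A2 (M + β) q.2 =
            S A0 q.1 M + s + S A2 (M + β) q.2 + t := by ring
          rw [this]
      _ = N * ∑ t ∈ range W, (1 / 8 : ℝ) := by
          rw [Finset.sum_const, Finset.sum_const, nsmul_eq_mul, nsmul_eq_mul, hPcard, card_range]
          ring
  have h4 := hU g (fun _ => 1 / 8) h0 h1 (fun _ => by norm_num) h3
  rw [Ex_const] at h4
  have h5 : Ex p (Ioc M (M + β)) (fun A1 => (((F ×ˢ A2).filter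
      (fun q => S A0 q.1 M + (∑ u ∈ A1, u) + S A2 (M + β) q.2 ∈ U)).card : ℝ)) =
      N * Ex p (Ioc M (M + β)) (fun A => g (∑ u ∈ A, u)) := by
    rw [← Ex_mul]
    apply Ex_congr
    intro A _
    simp only [hg]
    rw [Finset.sum_boole, one_div, mul_inv_cancel_left₀ hNpos.ne']
  rw [h5]
  calc N * Ex p (Ioc M (M + β)) (fun A => g (∑ u ∈ A, u)) ≤ N * (1 / 8 + ε) := by gcongr
    _ = _ := by ring

/-- one block succeeds with probability at least one half -/
theorem block_prob {p : ℝ} (hp0 : 0 < p) (hp1 : p < 1) {A0 U : Finset ℕ} {M β m W : ℕ}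
    {ε κ2 : ℝ} (hU : Unif p (Ioc M (M + β)) W ε) (hW : 0 < W) (hε : ε ≤ 1 / 32)
    (hA0 : A0 ⊆ Ioc 0 M) (hm : 2 * m ≤ M) (hm0 : 0 < m) (hβ0 : 0 < β)
    (hF : p * m / 2 ≤ (Fs m A0).card)
    (hdens : ∀ z, (((range W).filter (fun t => z + t ∈ U)).card : ℝ) ≤ W / 8)
    (hcoll : Ex p (Ioc (M + β) (M + 2 * β))
      (fun A => ((collset (Fs m A0) A).card : ℝ)) ≤ κ2)
    (hκ2 : κ2 ≤ (1 / 16) * (p ^ 2 * m * β / 16)) (hβ1 : 4 / (p * β) ≤ 1 / 16) :
    Ex p (Ioc M (M + 2 * β)) (fun A' =>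
      if ((((Fs m A0 ×ˢ (A'.filter (fun y => M + β < y))).image
        (fun q => S (A0 ∪ A') q.1 q.2)) \ U).card : ℝ) < p ^ 2 * m * β / 16
      then (1 : ℝ) else 0) ≤ 1 / 2 := by
  set F := Fs m A0 with hFdef
  set c1 : ℝ := p ^ 2 * m * β / 16 with hc1
  have hmr : (0 : ℝ) < m := by exact_mod_cast hm0
  have hβr : (0 : ℝ) < β := by exact_mod_cast hβ0
  have hc1pos : 0 < c1 := by positivity
  have hFpos : (0 : ℝ) < F.card := lt_of_lt_of_le (by positivity) hF
  have hFpos' : 0 < F.card := by exact_mod_cast hFpos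
  have hJ : Ioc M (M + 2 * β) = Ioc M (M + β) ∪ Ioc (M + β) (M + 2 * β) := by
    ext u
    simp only [mem_union, mem_Ioc]
    omega
  have hdis : Disjoint (Ioc M (M + β)) (Ioc (M + β) (M + 2 * β)) := by
    rw [Finset.disjoint_left]
    intro u h1 h2
    simp only [mem_Ioc] at h1 h2
    omega
  rw [hJ, Ex_union p hdis]
  set ovl : Finset ℕ → Finset ℕ → ℝ := fun A1 A2 => (((F ×ˢ A2).filter
      (fun q => S A0 q.1 M + (∑ u ∈ A1, u) + S A2 (M + β) q.2 ∈ U)).card : ℝ) with hovl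
  have hcard : (Ioc (M + β) (M + 2 * β)).card = β := by simp; omega
  -- pointwise bound
  have hpt : ∀ A1 ⊆ Ioc M (M + β), ∀ A2 ⊆ Ioc (M + β) (M + 2 * β),
      (if ((((F ×ˢ ((A1 ∪ A2).filter (fun y => M + β < y))).image
        (fun q => S (A0 ∪ (A1 ∪ A2)) q.1 q.2)) \ U).card : ℝ) < c1 then (1 : ℝ) else 0) ≤
      (if (A2.card : ℝ) < p * (Ioc (M + β) (M + 2 * β)).card / 2 then (1 : ℝ) else 0) +
      ((1 / c1) * ((collset F A2).card : ℝ) +
        (if 0 < A2.card then (2 / (F.card * A2.card)) * ovl A1 A2 else 0)) := by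
    intro A1 hA1 A2 hA2
    have hfil : (A1 ∪ A2).filter (fun y => M + β < y) = A2 := by
      ext u
      simp only [mem_filter, mem_union]
      constructor
      · rintro ⟨h | h, h1⟩
        · have := mem_Ioc.mp (hA1 h); omega
        · exact h
      · intro h
        exact ⟨Or.inr h, (mem_Ioc.mp (hA2 h)).1⟩
    rw [hfil, hcard]
    have hov0 : 0 ≤ ovl A1 A2 := by simp only [hovl]; positivity
    have t1 : (0 : ℝ) ≤ (if (A2.card : ℝ) < p * β / 2 then (1 : ℝ) else 0) := by
      split_ifs <;> norm_num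
    have t2 : (0 : ℝ) ≤ (1 / c1) * ((collset F A2).card : ℝ) := by positivity
    have t3 : (0 : ℝ) ≤ (if 0 < A2.card then (2 / (F.card * A2.card)) * ovl A1 A2 else 0) := by
      split_ifs
      · positivity
      · exact le_refl _
    by_cases hgood : ((((F ×ˢ A2).image (fun q => S (A0 ∪ (A1 ∪ A2)) q.1 q.2)) \ U).card : ℝ) < c1
    swap
    · rw [if_neg hgood]; linarith
    rw [if_pos hgood]
    by_cases ha : (A2.card : ℝ) < p * β / 2
    · rw [if_pos ha]; linarith
    rw [if_neg ha]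
    push Not at ha
    have hA2pos : (0 : ℝ) < A2.card := lt_of_lt_of_le (by positivity) ha
    have hA2pos' : 0 < A2.card := by exact_mod_cast hA2pos
    rw [if_pos hA2pos']
    have hcnt := block_count (U := U) (A1 := A1) hA0 hA1 hA2 hm
    have hcnt' : (F.card : ℝ) * A2.card ≤
      ((((F ×ˢ A2).image (fun q => S (A0 ∪ (A1 ∪ A2)) q.1 q.2)) \ U).card : ℝ) +
      ((collset F A2).card : ℝ) + ovl A1 A2 := by
      simp only [hovl]
      exact_mod_cast hcnt
    set N : ℝ := (F.card : ℝ) * A2.card with hN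
    have hNpos : 0 < N := by positivity
    have hN1 : 4 * c1 ≤ N := by
      have : (p * m / 2) * (p * β / 2) ≤ (F.card : ℝ) * A2.card := by
        apply mul_le_mul hF ha (by positivity) (by positivity)
      calc 4 * c1 = (p * m / 2) * (p * β / 2) := by rw [hc1]; ring
        _ ≤ _ := this
    have t3' : 0 ≤ (2 / N) * ovl A1 A2 := mul_nonneg (by positivity) hov0
    -- either coll ≥ c1 or ovl ≥ N/2
    by_cases hcc : c1 ≤ ((collset F A2).card : ℝ)
    · have : 1 ≤ (1 / c1) * ((collset F A2).card : ℝ) := by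
        rw [one_div, le_inv_mul_iff₀ hc1pos]; linarith
      linarith
    · push Not at hcc
      have h5 : N / 2 ≤ ovl A1 A2 := by linarith
      have : 1 ≤ (2 / N) * ovl A1 A2 := by
        rw [div_mul_eq_mul_div, le_div_iff₀ hNpos]; linarith
      linarith
  -- integrate
  have hint : Ex p (Ioc M (M + β)) (fun A1 => Ex p (Ioc (M + β) (M + 2 * β)) (fun A2 =>
      (if ((((F ×ˢ ((A1 ∪ A2).filter (fun y => M + β < y))).image
        (fun q => S (A0 ∪ (A1 ∪ A2)) q.1 q.2)) \ U).card : ℝ) < c1 then (1 : ℝ) else 0))) ≤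
      Ex p (Ioc M (M + β)) (fun A1 => Ex p (Ioc (M + β) (M + 2 * β)) (fun A2 =>
      (if (A2.card : ℝ) < p * (Ioc (M + β) (M + 2 * β)).card / 2 then (1 : ℝ) else 0) +
      ((1 / c1) * ((collset F A2).card : ℝ) +
        (if 0 < A2.card then (2 / (F.card * A2.card)) * ovl A1 A2 else 0)))) := by
    apply Ex_mono hp0.le hp1.le
    intro A1 hA1
    apply Ex_mono hp0.le hp1.le
    intro A2 hA2
    exact hpt A1 hA1 A2 hA2
  refine hint.trans ?_
  have e1 : Ex p (Ioc (M + β) (M + 2 * β)) (fun A2 =>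
      (if (A2.card : ℝ) < p * (Ioc (M + β) (M + 2 * β)).card / 2 then (1 : ℝ) else 0)) ≤ 1 / 16 := by
    refine (Ex_indicator_card hp0 hp1.le (by rw [hcard]; exact hβ0)).trans ?_
    rw [hcard]; exact hβ1
  have e2 : Ex p (Ioc (M + β) (M + 2 * β)) (fun A2 => (1 / c1) * ((collset F A2).card : ℝ)) ≤
      1 / 16 := by
    rw [Ex_mul, one_div, inv_mul_le_iff₀ hc1pos]
    linarith
  have e3 : Ex p (Ioc M (M + β)) (fun A1 => Ex p (Ioc (M + β) (M + 2 * β)) (fun A2 =>
        (if 0 < A2.card then (2 / (F.card * A2.card)) * ovl A1 A2 else 0))) ≤ 2 * (1 / 8 + 1 / 32) := by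
    rw [Ex_comm]
    apply Ex_le_const hp0.le hp1.le
    intro A2 hA2
    by_cases hpos : 0 < A2.card
    · simp only [if_pos hpos]
      rw [Ex_mul]
      have h6 := overlap_exp hp0.le hp1.le hU hW hFpos' hpos hdens
      have hpos' : (0 : ℝ) < A2.card := by exact_mod_cast hpos
      have hNpos : 0 < (F.card : ℝ) * A2.card := by positivity
      rw [div_mul_eq_mul_div, div_le_iff₀ hNpos]
      calc 2 * Ex p (Ioc M (M + β)) (fun A1 => ovl A1 A2)
          ≤ 2 * ((1 / 8 + ε) * (F.card * A2.card)) := by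
            simp only [hovl]; linarith
        _ ≤ 2 * (1 / 8 + 1 / 32) * (F.card * A2.card) := by
            rw [mul_assoc]
            gcongr
    · simp only [if_neg hpos]
      rw [Ex_const]; norm_num
  have e4 : Ex p (Ioc M (M + β)) (fun A1 => Ex p (Ioc (M + β) (M + 2 * β)) (fun A2 =>
      (if (A2.card : ℝ) < p * (Ioc (M + β) (M + 2 * β)).card / 2 then (1 : ℝ) else 0) +
      ((1 / c1) * ((collset F A2).card : ℝ) +
        (if 0 < A2.card then (2 / (F.card * A2.card)) * ovl A1 A2 else 0)))) =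
      Ex p (Ioc (M + β) (M + 2 * β)) (fun A2 =>
      (if (A2.card : ℝ) < p * (Ioc (M + β) (M + 2 * β)).card / 2 then (1 : ℝ) else 0)) +
      (Ex p (Ioc (M + β) (M + 2 * β)) (fun A2 => (1 / c1) * ((collset F A2).card : ℝ)) +
      Ex p (Ioc M (M + β)) (fun A1 => Ex p (Ioc (M + β) (M + 2 * β)) (fun A2 =>
        (if 0 < A2.card then (2 / (F.card * A2.card)) * ovl A1 A2 else 0)))) := by
    simp_rw [Ex_add]
    rw [Ex_const, Ex_const]
  rw [e4]
  linarith

end Pool.Agent.H77CS
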