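import Mathlib
import Pool.Agent.H77CS.Block

open Finset

namespace Pool.Agent.H77CS

/-- the end points used in the first `b` blocks -/
def Ac (n1 β b : ℕ) (A : Finset ℕ) : Finset ℕ :=
  A.filter (fun y => ∃ b' < b, n1 + 2 * β * b' + β < y ∧ y ≤ n1 + 2 * β * b' + 2 * β)

/-- the sums produced by the first `b` blocks -/
def Ub (m n1 β b : ℕ) (A : Finset ℕ) : Finset ℕ :=
  (Fs m A ×ˢ Ac n1 β b A).image (fun q => S A q.1 q.2)

theorem Ac_gt {n1 β b : ℕ} {A : Finset ℕ} {y : ℕ} (hy : y ∈ Ac n1 β b A) :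
    y ∈ A ∧ n1 < y ∧ y ≤ n1 + 2 * β * b := by
  simp only [Ac, mem_filter] at hy
  obtain ⟨hA, b', hb', h1, h2⟩ := hy
  refine ⟨hA, by omega, ?_⟩
  have : 2 * β * b' + 2 * β ≤ 2 * β * b := by
    calc 2 * β * b' + 2 * β = 2 * β * (b' + 1) := by ring
      _ ≤ 2 * β * b := Nat.mul_le_mul_left _ hb'
  omega

theorem density_one {A V : Finset ℕ} {h x z W : ℕ} (hh : 0 < h) (hV : V ⊆ A)
    (hVh : ∀ y ∈ V, h < y) (hx : x ≤ h) :
    (V.filter (fun y => z ≤ S A x y ∧ S A x y < z + W)).card ≤ W / h + 1 := by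
  have h1 : Set.MapsTo (fun y => (S A x y - z) / h)
      ((V.filter (fun y => z ≤ S A x y ∧ S A x y < z + W) : Finset ℕ) : Set ℕ)
      ((range (W / h + 1) : Finset ℕ) : Set ℕ) := by
    intro y hy
    simp only [coe_filter, Set.mem_ofPred_eq] at hy
    simp only [coe_range, Set.mem_Iio]
    have : (S A x y - z) / h ≤ W / h := Nat.div_le_div_right (by omega)
    omega
  have key : ∀ y y', y ∈ V.filter (fun y => z ≤ S A x y ∧ S A x y < z + W) →
      y' ∈ V.filter (fun y => z ≤ S A x y ∧ S A x y < z + W) → y < y' →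
      (S A x y - z) / h ≠ (S A x y' - z) / h := by
    intro y y' hy hy' hlt heq
    simp only [mem_filter] at hy hy'
    have e0 := hVh y hy.1
    have e1 := S_add (A := A) (y := x) (z := y) (w := y') (by omega) hlt.le
    have e2 := S_ge A y y'
    have e3 := ct_pos hlt (hV hy'.1)
    have e4 : 1 * (y + 1) ≤ ct A y y' * (y + 1) := Nat.mul_le_mul_right _ e3
    have e5 : (S A x y - z + h) / h ≤ (S A x y' - z) / h := Nat.div_le_div_right (by omega)
    rw [Nat.add_div_right _ hh] at e5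
    omega
  have h2 : Set.InjOn (fun y => (S A x y - z) / h)
      ((V.filter (fun y => z ≤ S A x y ∧ S A x y < z + W) : Finset ℕ) : Set ℕ) := by
    intro y hy y' hy' heq
    have hy0 := Finset.mem_coe.mp hy
    have hy0' := Finset.mem_coe.mp hy'
    simp only at heq
    rcases lt_trichotomy y y' with h' | h' | h'
    · exact absurd heq (key y y' hy0 hy0' h')
    · exact h'
    · exact absurd heq.symm (key y' y hy0' hy0 h')
  have := Finset.card_le_card_of_injOn _ h1 h2
  simpa using this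

theorem density {A : Finset ℕ} {m n1 β b z W : ℕ} (hm : 2 * m ≤ n1) (hn1 : 0 < n1) :
    ((range W).filter (fun t => z + t ∈ Ub m n1 β b A)).card ≤ m * (W / n1 + 1) := by
  set Z : Finset (Σ _ : ℕ, ℕ) := (Fs m A).sigma (fun x =>
    (Ac n1 β b A).filter (fun y => z ≤ S A x y ∧ S A x y < z + W)) with hZ
  have h1 : (range W).filter (fun t => z + t ∈ Ub m n1 β b A) ⊆
      Z.image (fun q => S A q.1 q.2 - z) := by
    intro t ht
    simp only [mem_filter, mem_range, Ub, mem_image, mem_product] at ht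
    obtain ⟨htW, q, ⟨hq1, hq2⟩, hq3⟩ := ht
    rw [mem_image]
    refine ⟨⟨q.1, q.2⟩, ?_, ?_⟩
    · rw [hZ]
      simp only [mem_sigma, mem_filter]
      exact ⟨hq1, hq2, by omega, by omega⟩
    · simp only; omega
  calc ((range W).filter (fun t => z + t ∈ Ub m n1 β b A)).card
      ≤ (Z.image (fun q => S A q.1 q.2 - z)).card := Finset.card_le_card h1
    _ ≤ Z.card := Finset.card_image_le
    _ = ∑ x ∈ Fs m A, ((Ac n1 β b A).filter (fun y => z ≤ S A x y ∧ S A x y < z + W)).card := by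
        rw [hZ, Finset.card_sigma]
    _ ≤ ∑ x ∈ Fs m A, (W / n1 + 1) := by
        apply Finset.sum_le_sum
        intro x hx
        have hx1 := mem_Ioc.mp (Fs_subset m A hx)
        apply density_one hn1 (fun y hy => (Ac_gt hy).1) (fun y hy => (Ac_gt hy).2.1)
        omega
    _ = (Fs m A).card * (W / n1 + 1) := by rw [Finset.sum_const, smul_eq_mul]
    _ ≤ m * (W / n1 + 1) := Nat.mul_le_mul_right _ (Fs_card_le m A)

theorem Fs_union {A0 A' : Finset ℕ} {m M M' : ℕ} (hA' : A' ⊆ Ioc M M') (hm : 2 * m ≤ M) :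
    Fs m (A0 ∪ A') = Fs m A0 := by
  unfold Fs
  ext u
  simp only [mem_filter, mem_union]
  constructor
  · rintro ⟨h | h, h1⟩
    · exact ⟨h, h1⟩
    · have := mem_Ioc.mp (hA' h); omega
  · rintro ⟨h, h1⟩
    exact ⟨Or.inl h, h1⟩

theorem S_union_left {A0 A' : Finset ℕ} {M M' x y : ℕ} (hA' : A' ⊆ Ioc M M') (hy : y ≤ M) :
    S (A0 ∪ A') x y = S A0 x y := by
  unfold S
  congr 1
  ext u
  simp only [mem_filter, mem_union]
  constructor
  · rintro ⟨h | h, h1, h2⟩
    · exact ⟨h, h1, h2⟩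
    · have := mem_Ioc.mp (hA' h); omega
  · rintro ⟨h, h1, h2⟩
    exact ⟨Or.inl h, h1, h2⟩

/-- weight function of the sequential argument -/
noncomputable def Psi (p lam : ℝ) (m n1 β b : ℕ) (A : Finset ℕ) : ℝ :=
  if p * m / 2 ≤ ((Fs m A).card : ℝ) then Real.exp (-lam * (Ub m n1 β b A).card) else 0

theorem Psi_step {p : ℝ} (hp0 : 0 < p) (hp1 : p < 1) {m n1 β b W : ℕ} {ε : ℝ}
    (hm : 2 * m ≤ n1) (hm0 : 0 < m) (hβ0 : 0 < β) (hn1 : 0 < n1)
    (hU : ∀ M, Unif p (Ioc M (M + β)) W ε) (hW : 0 < W) (hε : ε ≤ 1 / 32)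
    (hdens : ((m * (W / n1 + 1) : ℕ) : ℝ) ≤ W / 8)
    (hcoll : ∀ F ⊆ Ioc m (2 * m), Ex p (Ioc (n1 + 2 * β * b + β) (n1 + 2 * β * b + 2 * β))
      (fun A => ((collset F A).card : ℝ)) ≤ (1 / 16) * (p ^ 2 * m * β / 16))
    (hβ1 : 4 / (p * β) ≤ 1 / 16) :
    Ex p (Ioc 0 (n1 + 2 * β * (b + 1))) (Psi p (4 / (p ^ 2 * m * β / 16)) m n1 β (b + 1)) ≤
      (3 / 5) * Ex p (Ioc 0 (n1 + 2 * β * b)) (Psi p (4 / (p ^ 2 * m * β / 16)) m n1 β b) := by
  set M := n1 + 2 * β * b with hM
  set c1 : ℝ := p ^ 2 * m * β / 16 with hc1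
  have hmr : (0 : ℝ) < m := by exact_mod_cast hm0
  have hβr : (0 : ℝ) < β := by exact_mod_cast hβ0
  have hc1pos : 0 < c1 := by positivity
  have hM' : n1 + 2 * β * (b + 1) = M + 2 * β := by rw [hM]; ring
  rw [hM']
  have hJ : Ioc 0 (M + 2 * β) = Ioc 0 M ∪ Ioc M (M + 2 * β) := by
    ext u
    simp only [mem_union, mem_Ioc]
    omega
  have hdis : Disjoint (Ioc 0 M) (Ioc M (M + 2 * β)) := by
    rw [Finset.disjoint_left]
    intro u h1 h2
    simp only [mem_Ioc] at h1 h2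
    omega
  rw [hJ, Ex_union p hdis, ← Ex_mul]
  apply Ex_mono hp0.le hp1.le
  intro A0 hA0
  have hmM : 2 * m ≤ M := by omega
  by_cases hgood : p * m / 2 ≤ ((Fs m A0).card : ℝ)
  · have hPsi0 : Psi p (4 / c1) m n1 β b A0 =
        Real.exp (-(4 / c1) * (Ub m n1 β b A0).card) := by
      unfold Psi; rw [if_pos hgood]
    rw [hPsi0]
    set U := Ub m n1 β b A0 with hUdef
    set D : Finset ℕ → Finset ℕ := fun A' => (Fs m A0 ×ˢ (A'.filter (fun y => M + β < y))).image
        (fun q => S (A0 ∪ A') q.1 q.2) with hD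
    have hcardU : ∀ A' ⊆ Ioc M (M + 2 * β),
        U.card + (D A' \ U).card ≤ (Ub m n1 β (b + 1) (A0 ∪ A')).card := by
      intro A' hA'
      have h1 : U ⊆ Ub m n1 β (b + 1) (A0 ∪ A') := by
        intro s hs
        simp only [hUdef, Ub, mem_image, mem_product] at hs ⊢
        obtain ⟨q, ⟨hq1, hq2⟩, hq3⟩ := hs
        refine ⟨q, ⟨?_, ?_⟩, ?_⟩
        · rw [Fs_union hA' hmM]; exact hq1
        · simp only [Ac, mem_filter] at hq2 ⊢
          obtain ⟨h2, b', hb', h3⟩ := hq2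
          exact ⟨mem_union_left _ h2, b', by omega, h3⟩
        · rw [S_union_left hA' (Ac_gt hq2).2.2]; exact hq3
      have h2 : D A' ⊆ Ub m n1 β (b + 1) (A0 ∪ A') := by
        intro s hs
        simp only [hD, Ub, mem_image, mem_product, mem_filter] at hs ⊢
        obtain ⟨q, ⟨hq1, hq2, hq3⟩, hq4⟩ := hs
        refine ⟨q, ⟨?_, ?_⟩, hq4⟩
        · rw [Fs_union hA' hmM]; exact hq1
        · simp only [Ac, mem_filter]
          have := mem_Ioc.mp (hA' hq2)
          exact ⟨mem_union_right _ hq2, b, by omega, by omega, by omega⟩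
      rw [← Finset.card_union_of_disjoint Finset.disjoint_sdiff]
      apply Finset.card_le_card
      intro s hs
      rcases mem_union.mp hs with h | h
      · exact h1 h
      · exact h2 (mem_sdiff.mp h).1
    have hpt : ∀ A' ⊆ Ioc M (M + 2 * β), Psi p (4 / c1) m n1 β (b + 1) (A0 ∪ A') ≤
        Real.exp (-(4 / c1) * U.card) *
          ((9 / 10) * (if ((D A' \ U).card : ℝ) < c1 then (1 : ℝ) else 0) + 1 / 10) := by
      intro A' hA'
      have h1 : Psi p (4 / c1) m n1 β (b + 1) (A0 ∪ A') =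
          Real.exp (-(4 / c1) * (Ub m n1 β (b + 1) (A0 ∪ A')).card) := by
        unfold Psi; rw [Fs_union hA' hmM, if_pos hgood]
      rw [h1]
      have h2 : ((U.card : ℝ) + (D A' \ U).card) ≤ (Ub m n1 β (b + 1) (A0 ∪ A')).card := by
        exact_mod_cast hcardU A' hA'
      have h3 : Real.exp (-(4 / c1) * (Ub m n1 β (b + 1) (A0 ∪ A')).card) ≤
          Real.exp (-(4 / c1) * U.card) * Real.exp (-(4 / c1) * (D A' \ U).card) := by
        rw [← Real.exp_add, ← mul_add]
        apply Real.exp_le_exp.mpr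
        have : 0 < 4 / c1 := by positivity
        nlinarith
      refine h3.trans ?_
      apply mul_le_mul_of_nonneg_left _ (Real.exp_pos _).le
      split_ifs with hlt
      · have : Real.exp (-(4 / c1) * (D A' \ U).card) ≤ 1 := by
          apply Real.exp_le_one_iff.mpr
          have : 0 < 4 / c1 := by positivity
          have : (0 : ℝ) ≤ (D A' \ U).card := by positivity
          nlinarith
        linarith
      · push Not at hlt
        have h4 : Real.exp (-(4 / c1) * (D A' \ U).card) ≤ Real.exp (-4) := by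
          apply Real.exp_le_exp.mpr
          have h5 : 4 / c1 * c1 = 4 := by field_simp
          have : 0 < 4 / c1 := by positivity
          nlinarith
        have h5 : Real.exp (-4) ≤ 1 / 10 := by
          rw [Real.exp_neg, inv_le_comm₀ (Real.exp_pos _) (by norm_num)]
          have h6 : (2.7 : ℝ) < Real.exp 1 := by
            have := Real.exp_one_gt_d9; linarith
          have h7 : Real.exp 4 = (Real.exp 1) ^ 4 := by
            rw [← Real.exp_nat_mul]; norm_num
          rw [h7]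
          calc ((1 : ℝ) / 10)⁻¹ ≤ (2.7 : ℝ) ^ 4 := by norm_num
            _ ≤ _ := by gcongr
        linarith
    have hbp := block_prob hp0 hp1 (U := U) (κ2 := (1 / 16) * c1) (hU M) hW hε hA0 hmM hm0 hβ0
      hgood (fun z => le_trans (by exact_mod_cast density hm hn1) hdens)
      (hcoll _ (Fs_subset m A0)) le_rfl hβ1
    calc Ex p (Ioc M (M + 2 * β)) (fun A' => Psi p (4 / c1) m n1 β (b + 1) (A0 ∪ A'))
        ≤ Ex p (Ioc M (M + 2 * β)) (fun A' => Real.exp (-(4 / c1) * U.card) *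
          ((9 / 10) * (if ((D A' \ U).card : ℝ) < c1 then (1 : ℝ) else 0) + 1 / 10)) :=
          Ex_mono hp0.le hp1.le hpt
      _ = Real.exp (-(4 / c1) * U.card) * ((9 / 10) * Ex p (Ioc M (M + 2 * β)) (fun A' =>
            (if ((D A' \ U).card : ℝ) < c1 then (1 : ℝ) else 0)) + 1 / 10) := by
          rw [Ex_mul, Ex_add, Ex_mul, Ex_const]
      _ ≤ Real.exp (-(4 / c1) * U.card) * ((9 / 10) * (1 / 2) + 1 / 10) := by
          gcongr
      _ ≤ 3 / 5 * Real.exp (-(4 / c1) * U.card) := by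
          have := Real.exp_pos (-(4 / c1) * (U.card : ℝ))
          nlinarith
  · have h1 : ∀ A' ⊆ Ioc M (M + 2 * β), Psi p (4 / c1) m n1 β (b + 1) (A0 ∪ A') = 0 := by
      intro A' hA'
      unfold Psi
      rw [Fs_union hA' hmM, if_neg hgood]
    rw [Ex_congr h1, Ex_const]
    unfold Psi
    rw [if_neg hgood]; norm_num

theorem Psi_all {p : ℝ} (hp0 : 0 < p) (hp1 : p < 1) {m n1 β W B : ℕ} {ε : ℝ}
    (hm : 2 * m ≤ n1) (hm0 : 0 < m) (hβ0 : 0 < β) (hn1 : 0 < n1)
    (hU : ∀ M, Unif p (Ioc M (M + β)) W ε) (hW : 0 < W) (hε : ε ≤ 1 / 32)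
    (hdens : ((m * (W / n1 + 1) : ℕ) : ℝ) ≤ W / 8)
    (hcoll : ∀ b < B, ∀ F ⊆ Ioc m (2 * m),
      Ex p (Ioc (n1 + 2 * β * b + β) (n1 + 2 * β * b + 2 * β))
      (fun A => ((collset F A).card : ℝ)) ≤ (1 / 16) * (p ^ 2 * m * β / 16))
    (hβ1 : 4 / (p * β) ≤ 1 / 16) :
    Ex p (Ioc 0 (n1 + 2 * β * B)) (Psi p (4 / (p ^ 2 * m * β / 16)) m n1 β B) ≤
      (3 / 5) ^ B := by
  have key : ∀ b ≤ B, Ex p (Ioc 0 (n1 + 2 * β * b))
      (Psi p (4 / (p ^ 2 * m * β / 16)) m n1 β b) ≤ (3 / 5) ^ b := by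
    intro b
    induction b with
    | zero =>
      intro _
      rw [pow_zero]
      apply Ex_le_const hp0.le hp1.le
      intro A _
      unfold Psi
      split_ifs
      · apply Real.exp_le_one_iff.mpr
        have : 0 ≤ 4 / (p ^ 2 * m * β / 16) := by positivity
        have h2 : (0 : ℝ) ≤ (Ub m n1 β 0 A).card := by positivity
        nlinarith
      · norm_num
    | succ b ih =>
      intro hb
      have h1 := Psi_step hp0 hp1 hm hm0 hβ0 hn1 hU hW hε hdens (hcoll b (by omega)) hβ1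
      refine h1.trans ?_
      have e : (3 / 5 : ℝ) ^ (b + 1) = 3 / 5 * (3 / 5) ^ b := pow_succ' _ _
      have h2 := mul_le_mul_of_nonneg_left (ih (by omega)) (show (0 : ℝ) ≤ 3 / 5 by norm_num)
      linarith
  exact key B le_rfl

end Pool.Agent.H77CS
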