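import Mathlib
import Pool.Agent.H77CS.Seq

open Finset

namespace Pool.Agent.H77CS

theorem Ex_Fs {p : ℝ} {m n : ℕ} (hmn : 2 * m ≤ n) (f : ℕ → ℝ) :
    Ex p (Ioc 0 n) (fun A => f (Fs m A).card) = Ex p (Ioc m (2 * m)) (fun A => f A.card) := by
  have hJ : Ioc 0 n = Ioc m (2 * m) ∪ (Ioc 0 m ∪ Ioc (2 * m) n) := by
    ext u
    simp only [mem_union, mem_Ioc]
    omega
  have hdis : Disjoint (Ioc m (2 * m)) (Ioc 0 m ∪ Ioc (2 * m) n) := by
    rw [Finset.disjoint_left]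
    intro u h1 h2
    simp only [mem_union, mem_Ioc] at h1 h2
    omega
  rw [hJ, Ex_union p hdis]
  apply Ex_congr
  intro A hA
  have : ∀ B ⊆ Ioc 0 m ∪ Ioc (2 * m) n, f (Fs m (A ∪ B)).card = f A.card := by
    intro B hB
    congr 2
    unfold Fs
    ext u
    simp only [mem_filter, mem_union]
    constructor
    · rintro ⟨h | h, h1⟩
      · exact h
      · have := hB h
        simp only [mem_union, mem_Ioc] at this
        omega
    · intro h
      exact ⟨Or.inl h, mem_Ioc.mp (hA h)⟩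
  rw [Ex_congr this, Ex_const]

/-- the sums of a block of consecutive elements of `A`, with exclusive left end in `A` -/
def Sm (A : Finset ℕ) : Finset ℕ :=
  ((A ×ˢ A).filter (fun q => q.1 < q.2)).image (fun q => S A q.1 q.2)

theorem Ub_subset {m n1 β b : ℕ} {A : Finset ℕ} (hm : 2 * m ≤ n1) :
    Ub m n1 β b A ⊆ Sm A := by
  intro s hs
  simp only [Ub, mem_image, mem_product] at hs
  obtain ⟨q, ⟨h1, h2⟩, h3⟩ := hs
  have h4 := Ac_gt h2
  simp only [Fs, mem_filter] at h1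
  simp only [Sm, mem_image, mem_filter, mem_product]
  exact ⟨q, ⟨⟨h1.1, h4.1⟩, by omega⟩, h3⟩

theorem main_bound {p : ℝ} (hp0 : 0 < p) (hp1 : p < 1) (B : ℕ) (hB : 0 < B) :
    ∃ n0 : ℕ, ∀ n ≥ n0,
      Ex p (Ioc 0 n) (fun A => if ((Sm A).card : ℝ) < p ^ 4 / 20971520 * n ^ 2 then (1 : ℝ) else 0)
        ≤ 65536 / (p ^ 3 * n) + (4 / 5) ^ B := by
  obtain ⟨Λ1, hΛ1⟩ := err_eventually hp0 hp1 B
  have hBr : (0 : ℝ) < B := by exact_mod_cast hB
  set c0 : ℝ := p ^ 2 / 16384 with hc0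
  have hc0pos : 0 < c0 := by positivity
  set η : ℝ := p ^ 2 * c0 / (2560 * B) with hη
  have hηpos : 0 < η := by positivity
  obtain ⟨n1', hn1'⟩ := coll_exp hp0 hp1 hc0pos hηpos
  obtain ⟨n2, hn2⟩ := exists_nat_ge (16384 / p ^ 2 * (2 ^ (Λ1 + 3 * B + 1) + 1))
  obtain ⟨n3, hn3⟩ := exists_nat_ge (64 / p * (5 * B) + 20 * B)
  refine ⟨n1' + n2 + n3 + 1, ?_⟩
  intro n hn
  have hn0 : 0 < n := by omega
  have hnr : (0 : ℝ) < n := by exact_mod_cast hn0
  have hnn2 : 16384 / p ^ 2 * (2 ^ (Λ1 + 3 * B + 1) + 1) ≤ n := by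
    refine hn2.trans ?_
    exact_mod_cast (by omega : n2 ≤ n)
  have hnn3 : 64 / p * (5 * B) + 20 * B ≤ n := by
    refine hn3.trans ?_
    exact_mod_cast (by omega : n3 ≤ n)
  set m := ⌊p ^ 2 * n / 8192⌋₊ with hm
  have hm1 : (m : ℝ) ≤ p ^ 2 * n / 8192 := Nat.floor_le (by positivity)
  have hm2' : p ^ 2 * n / 8192 - 1 < m := Nat.sub_one_lt_floor _
  have hbig : (2 : ℝ) ^ (Λ1 + 3 * B + 1) + 1 ≤ p ^ 2 * n / 16384 := by
    have h1 : 16384 / p ^ 2 * (2 ^ (Λ1 + 3 * B + 1) + 1) * p ^ 2 ≤ n * p ^ 2 := by gcongr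
    have h2 : 16384 / p ^ 2 * (2 ^ (Λ1 + 3 * B + 1) + 1) * p ^ 2 =
        16384 * ((2 : ℝ) ^ (Λ1 + 3 * B + 1) + 1) := by field_simp
    rw [h2] at h1
    linarith
  have hpow1 : (1 : ℝ) ≤ 2 ^ (Λ1 + 3 * B + 1) := one_le_pow₀ (by norm_num)
  have hm2 : p ^ 2 * n / 16384 ≤ m := by linarith
  have hm3 : (2 : ℝ) ^ (Λ1 + 3 * B + 1) ≤ m := by linarith
  have hm3' : 2 ^ (Λ1 + 3 * B + 1) ≤ m := by exact_mod_cast hm3
  have hm0 : 0 < m := lt_of_lt_of_le (by positivity) hm3'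
  have hmr : (0 : ℝ) < m := by exact_mod_cast hm0
  have hp2 : p ^ 2 ≤ 1 := pow_le_one₀ hp0.le hp1.le
  have hmn' : 8192 * (m : ℝ) ≤ n := by
    have : p ^ 2 * n ≤ 1 * n := by gcongr
    linarith
  have hmn : 8192 * m ≤ n := by exact_mod_cast hmn'
  set β := n / (4 * B) with hβ
  have hβ1 : 4 * B * β ≤ n := Nat.mul_div_le n (4 * B)
  have hβ2 : n < 4 * B * (β + 1) := by
    have := Nat.lt_mul_div_succ n (show 0 < 4 * B by omega)
    exact this
  have hβ2r : (n : ℝ) < 4 * B * (β + 1) := by exact_mod_cast hβ2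
  have hβ3 : (n : ℝ) ≤ 5 * (B * β) := by
    have h1 : 20 * (B : ℝ) ≤ n := by
      have : 0 ≤ 64 / p * (5 * B) := by positivity
      linarith
    nlinarith
  have hβ0r : (0 : ℝ) < β := by
    by_contra hcon
    push Not at hcon
    have : (B : ℝ) * β ≤ 0 := mul_nonpos_of_nonneg_of_nonpos hBr.le hcon
    linarith
  have hβ0 : 0 < β := by exact_mod_cast hβ0r
  have hβ4 : 64 / p ≤ β := by
    have h1 : 64 / p * (5 * B) ≤ 5 * (B * β) := by linarith
    have h2 : (64 / p) * (5 * B) ≤ β * (5 * B) := by linarith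
    exact le_of_mul_le_mul_right h2 (by positivity)
  set n1 := n - 2 * β * B with hn1
  have h2β : 2 * (2 * β * B) ≤ n := by
    calc 2 * (2 * β * B) = 4 * B * β := by ring
      _ ≤ n := hβ1
  have hn1e : n1 + 2 * β * B = n := by omega
  have hn1' : n ≤ 2 * n1 := by omega
  have hn10 : 0 < n1 := by omega
  -- window
  set Λ := Nat.log 2 (16 * m) + 1 with hΛ
  have hW1 : 16 * m < 2 ^ Λ := Nat.lt_pow_succ_log_self (by norm_num) _
  have hW2 : 2 ^ Λ ≤ 32 * m := by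
    have := Nat.pow_log_le_self 2 (show 16 * m ≠ 0 by omega)
    rw [hΛ, pow_succ]; omega
  have hΛbig : Λ1 + 3 * B + 1 ≤ Λ := by
    by_contra hcon
    push Not at hcon
    have : 2 ^ Λ ≤ 2 ^ (Λ1 + 3 * B + 1) := Nat.pow_le_pow_right (by norm_num) (by omega)
    omega
  have hℓ : 2 ^ (Λ + 2 - B) ≤ β := by
    have h1 : 2 ^ (Λ + 2 - B) * 2 ^ B = 2 ^ (Λ + 2) := by
      rw [← pow_add]; congr 1; omega
    have h2 : 2 ^ (Λ + 2) = 4 * 2 ^ Λ := by rw [pow_add]; ring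
    have h3 : B ≤ 2 ^ B := Nat.lt_two_pow_self.le
    have h4 : 5 * (2 ^ (Λ + 2 - B) * 2 ^ B) ≤ 5 * (β * 2 ^ B) := by
      have h5 : n ≤ 5 * (B * β) := by exact_mod_cast hβ3
      have h6 : B * β ≤ 2 ^ B * β := Nat.mul_le_mul_right _ h3
      rw [h1, h2]
      have h7 : β * 2 ^ B = 2 ^ B * β := by ring
      omega
    have h5 : 2 ^ (Λ + 2 - B) * 2 ^ B ≤ β * 2 ^ B := by omega
    exact Nat.le_of_mul_le_mul_right h5 (by positivity)
  have hU : ∀ M, Unif p (Ioc M (M + β)) (2 ^ Λ) (err p B Λ) := fun M =>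
    unif_main hp0.le hp1.le M B Λ β (by omega) hℓ
  have herr : err p B Λ ≤ 1 / 32 := by
    refine (hΛ1 Λ (by omega)).trans ?_
    apply div_le_div_of_nonneg_left (by norm_num) (by norm_num)
    calc (32 : ℝ) = 2 ^ 5 := by norm_num
      _ ≤ 2 ^ (8 * Λ) := pow_le_pow_right₀ (by norm_num) (by omega)
  have hdens : ((m * (2 ^ Λ / n1 + 1) : ℕ) : ℝ) ≤ ((2 ^ Λ : ℕ) : ℝ) / 8 := by
    have h1 : 2 ^ Λ / n1 = 0 := Nat.div_eq_of_lt (by omega)
    rw [h1, le_div_iff₀ (by norm_num)]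
    have : m * (0 + 1) * 8 ≤ 2 ^ Λ := by omega
    exact_mod_cast this
  have hcoll : ∀ b < B, ∀ F ⊆ Ioc m (2 * m),
      Ex p (Ioc (n1 + 2 * β * b + β) (n1 + 2 * β * b + 2 * β))
      (fun A => ((collset F A).card : ℝ)) ≤ (1 / 16) * (p ^ 2 * m * β / 16) := by
    intro b hb F hF
    have hbB : 2 * β * b + 2 * β ≤ 2 * β * B := by
      calc 2 * β * b + 2 * β = 2 * β * (b + 1) := by ring
        _ ≤ 2 * β * B := Nat.mul_le_mul_left _ hb
    have h1 := ‹∀ n ≥ n1', ∀ (m α β : ℕ) (F : Finset ℕ), c0 * n ≤ m → 2 * m ≤ n →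
      n ≤ 2 * α → α + β ≤ n → F ⊆ Ioc m (2 * m) →
      Ex p (Ioc α (α + β)) (fun A => ((collset F A).card : ℝ)) ≤
        16 * m ^ 2 * β / n + η * n ^ 2› n (by omega) m (n1 + 2 * β * b + β) β F
        (by rw [hc0]; linarith) (by omega) (by omega) (by omega) hF
    have e : n1 + 2 * β * b + β + β = n1 + 2 * β * b + 2 * β := by ring
    rw [e] at h1
    refine h1.trans ?_
    have h2 : 16 * (m : ℝ) ^ 2 * β / n ≤ p ^ 2 * m * β / 512 := by
      rw [div_le_iff₀ hnr]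
      have h3 : (m : ℝ) * (16 * m * β) ≤ (p ^ 2 * n / 8192) * (16 * m * β) := by gcongr
      calc 16 * (m : ℝ) ^ 2 * β = m * (16 * m * β) := by ring
        _ ≤ (p ^ 2 * n / 8192) * (16 * m * β) := h3
        _ = p ^ 2 * m * β / 512 * n := by ring
    have h4 : η * (n : ℝ) ^ 2 ≤ p ^ 2 * m * β / 512 := by
      have h5 : c0 * n ≤ m := by rw [hc0]; linarith
      calc η * (n : ℝ) ^ 2 = p ^ 2 / (2560 * B) * (c0 * n) * n := by rw [hη]; ring
        _ ≤ p ^ 2 / (2560 * B) * m * (5 * (B * β)) := by gcongr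
        _ = p ^ 2 * m * β / 512 := by field_simp; norm_num
    linarith
  have hβ5 : 4 / (p * β) ≤ 1 / 16 := by
    rw [div_le_div_iff₀ (by positivity) (by norm_num)]
    rw [div_le_iff₀ hp0] at hβ4
    linarith
  have hall := Psi_all hp0 hp1 (B := B) (show 2 * m ≤ n1 by omega) hm0 hβ0 hn10 hU
    (by positivity) herr hdens hcoll hβ5
  rw [hn1e] at hall
  set c1 : ℝ := p ^ 2 * m * β / 16 with hc1
  have hc1pos : 0 < c1 := by positivity
  -- pointwise
  have hpt : ∀ A ⊆ Ioc 0 n,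
      (if ((Sm A).card : ℝ) < p ^ 4 / 20971520 * n ^ 2 then (1 : ℝ) else 0) ≤
      (if ((Fs m A).card : ℝ) < p * (Ioc m (2 * m)).card / 2 then (1 : ℝ) else 0) +
        Real.exp (B / 4) * Psi p (4 / c1) m n1 β B A := by
    intro A _
    have hcm : (Ioc m (2 * m)).card = m := by simp; omega
    rw [hcm]
    have hPsi0 : 0 ≤ Psi p (4 / c1) m n1 β B A := by
      unfold Psi; split_ifs
      · exact (Real.exp_pos _).le
      · exact le_refl _
    have hexp := Real.exp_pos ((B : ℝ) / 4)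
    by_cases h1 : ((Fs m A).card : ℝ) < p * m / 2
    · rw [if_pos h1]
      have : (if ((Sm A).card : ℝ) < p ^ 4 / 20971520 * n ^ 2 then (1 : ℝ) else 0) ≤ 1 := by
        split_ifs <;> norm_num
      have := mul_nonneg hexp.le hPsi0
      linarith
    · rw [if_neg h1]
      split_ifs with h2
      · unfold Psi
        push Not at h1
        rw [if_pos h1, zero_add, ← Real.exp_add]
        rw [← Real.exp_zero]
        apply Real.exp_le_exp.mpr
        have h3 : ((Ub m n1 β B A).card : ℝ) ≤ (Sm A).card := by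
          exact_mod_cast Finset.card_le_card (Ub_subset (show 2 * m ≤ n1 by omega))
        have h4 : p ^ 4 / 20971520 * (n : ℝ) ^ 2 ≤ c1 * B / 16 := by
          have h5 : (p ^ 2 * n / 16384) * n ≤ m * (5 * (B * β)) := by gcongr
          calc p ^ 4 / 20971520 * (n : ℝ) ^ 2
              = p ^ 2 / 1280 * ((p ^ 2 * n / 16384) * n) := by ring
            _ ≤ p ^ 2 / 1280 * (m * (5 * (B * β))) := by gcongr
            _ = c1 * B / 16 := by rw [hc1]; ring
        have h6 : ((Ub m n1 β B A).card : ℝ) ≤ c1 * B / 16 := by linarith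
        have h7 : (4 / c1) * ((Ub m n1 β B A).card : ℝ) ≤ (4 / c1) * (c1 * B / 16) := by
          gcongr
        have h8 : (4 / c1) * (c1 * B / 16) = (B : ℝ) / 4 := by field_simp; norm_num
        linarith
      · have := mul_nonneg hexp.le hPsi0
        linarith
  refine (Ex_mono hp0.le hp1.le hpt).trans ?_
  rw [Ex_add, Ex_mul]
  have hcm : (Ioc m (2 * m)).card = m := by simp; omega
  have e1 : Ex p (Ioc 0 n) (fun A =>
      (if ((Fs m A).card : ℝ) < p * (Ioc m (2 * m)).card / 2 then (1 : ℝ) else 0)) ≤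
      65536 / (p ^ 3 * n) := by
    have h1 := Ex_Fs (p := p) (m := m) (n := n) (by omega)
      (fun k => if (k : ℝ) < p * (Ioc m (2 * m)).card / 2 then (1 : ℝ) else 0)
    rw [h1]
    refine (Ex_indicator_card hp0 hp1.le (by rw [hcm]; exact hm0)).trans ?_
    rw [hcm, div_le_div_iff₀ (by positivity) (by positivity)]
    have h2 : 4 * (p ^ 3 * n) = 65536 * (p * (p ^ 2 * n / 16384)) := by ring
    rw [h2]
    gcongr
  have e2 : Real.exp (B / 4) * Ex p (Ioc 0 n) (Psi p (4 / c1) m n1 β B) ≤ (4 / 5) ^ B := by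
    have h1 : Real.exp ((B : ℝ) / 4) = Real.exp (1 / 4) ^ B := by
      rw [← Real.exp_nat_mul]; congr 1; ring
    have h2 : Real.exp (1 / 4) ≤ 4 / 3 := by
      have h3 : Real.exp (1 / 4) ^ 4 = Real.exp 1 := by
        rw [← Real.exp_nat_mul]; norm_num
      have h4 := Real.exp_one_lt_d9
      by_contra hcon
      push Not at hcon
      have h5 : (4 / 3 : ℝ) ^ 4 ≤ Real.exp (1 / 4) ^ 4 := by gcongr
      rw [h3] at h5
      norm_num at h5
      linarith
    calc Real.exp (B / 4) * Ex p (Ioc 0 n) (Psi p (4 / c1) m n1 β B)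
        ≤ Real.exp (1 / 4) ^ B * (3 / 5) ^ B := by
          rw [h1]; gcongr
      _ ≤ (4 / 3) ^ B * (3 / 5) ^ B := by gcongr
      _ = (4 / 5) ^ B := by rw [← mul_pow]; norm_num
  linarith

end Pool.Agent.H77CS
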